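import Pool.Agent.R189.Sf4
import Pool.Agent.R189.Fb1

/-!
# Stable and unstable directions tangent to the fibres of an invariant fibration
-/

set_option autoImplicit false
set_option linter.unusedSectionVars false

open scoped Manifold ContDiff Topology Bundle
open Set Filter Bundle

namespace Pool.Agent.R189.Fb

open Pool.Agent.H721R2 Pool.Agent.H789R2.AN Pool.Agent.H779R2.An Pool.Agent.R189.IS
  Pool.Agent.R189.Sf

section dir
variable {E : Type*} [NormedAddCommGroup E] [NormedSpace ℝ E] [FiniteDimensional ℝ E]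
  {M : Type*} [TopologicalSpace M] [T2Space M] [CompactSpace M] [ChartedSpace E M]
  [IsManifold 𝓘(ℝ, E) ∞ M]
  {E' : Type*} [NormedAddCommGroup E'] [NormedSpace ℝ E'] [FiniteDimensional ℝ E']
  {B : Type*} [TopologicalSpace B] [T2Space B] [CompactSpace B] [ChartedSpace E' B]
  [IsManifold 𝓘(ℝ, E') ∞ B]

/-- **The fibres of an invariant fibration contain stable and unstable directions.** -/
theorem fib_dir (f : Diffeomorph 𝓘(ℝ, E) 𝓘(ℝ, E) M M 1)
    (Es Eu : ∀ x : M, Submodule ℝ (TangentSpace 𝓘(ℝ, E) x)) (hA : IsAnosov f Es Eu)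
    (p : M → B) (hp : ContMDiff 𝓘(ℝ, E) 𝓘(ℝ, E') 1 p) (r : ℕ)
    (hr : ∀ x, Module.finrank ℝ (LinearMap.ker (di E E' p x).toLinearMap) = r)
    (g : Diffeomorph 𝓘(ℝ, E') 𝓘(ℝ, E') B B 1) (hfg : ∀ x, p (f x) = g (p x))
    (hcon : ∀ x, IsPreconnected {y | p x = p y}) (hinf : ∀ x, {y | p x = p y}.Infinite) (x : M) :
    (∃ w : E, w ≠ 0 ∧ di E E' p x w = 0 ∧ w ∈ Es x) ∧
      ∃ w : E, w ≠ 0 ∧ di E E' p x w = 0 ∧ w ∈ Eu x := by
  classical
  have hfg' : ∀ x, p (f.symm x) = g.symm (p x) := fun x => by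
    have h1 := hfg (f.symm x)
    rw [f.apply_symm_apply] at h1
    rw [h1, g.symm_apply_apply]
  have hfn : ∀ (n : ℕ) (x : M), p (f^[n] x) = g^[n] (p x) := by
    intro n
    induction n with
    | zero => intro z; rfl
    | succ n ih => intro z; rw [Function.iterate_succ_apply', hfg, ih, Function.iterate_succ_apply']
  have hfn' : ∀ (n : ℕ) (x : M), p (f.symm^[n] x) = g.symm^[n] (p x) := by
    intro n
    induction n with
    | zero => intro z; rfl
    | succ n ih => intro z; rw [Function.iterate_succ_apply', hfg', ih, Function.iterate_succ_apply']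
  obtain ⟨m, e, he, hemb, hinj⟩ := exists_embedding_euclidean_of_compact (I := 𝓘(ℝ, E)) (M := M)
  let _ : MetricSpace M := hemb.isEmbedding.comapMetricSpace e
  have hiso : ∀ x y : M, dist x y = ‖e x - e y‖ := fun x y => dist_eq_norm (e x) (e y)
  have he1 : ContMDiff 𝓘(ℝ, E) (𝓡 m) 1 e := he.of_le (by simp)
  obtain ⟨m', e', he', hemb', hinj'⟩ :=
    exists_embedding_euclidean_of_compact (I := 𝓘(ℝ, E')) (M := B)
  have he1' : ContMDiff 𝓘(ℝ, E') (𝓡 m') 1 e' := he'.of_le (by simp)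
  have hh : ContMDiff 𝓘(ℝ, E) (𝓡 m') 1 (e' ∘ p) := he1'.comp hp
  have hdp : ∀ z v, dm E (e' ∘ p) z v = dm E' e' (p z) (di E E' p z v) := dm_comp_di e' he1' p hp
  have hker : ∀ z v, dm E (e' ∘ p) z v = 0 ↔ di E E' p z v = 0 := fun z v => by
    rw [hdp]
    constructor
    · intro h0
      exact hinj' _ (h0.trans (map_zero _).symm)
    · intro h0
      rw [h0, map_zero]
  obtain ⟨K₀, hK₀, hkp⟩ := ker_unif e he1 (e' ∘ p) hh r (fun x => by
    have h1 : LinearMap.ker (dm E (e' ∘ p) x).toLinearMap =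
        LinearMap.ker (di E E' p x).toLinearMap := by
      ext v
      exact hker x v
    rw [h1, hr x])
  obtain ⟨C', a, b, Ls, Lu, hE⟩ := eanosov_of_isAnosov e he1 hinj f Es Eu hA
  obtain ⟨K, hK, hang⟩ := hE.angle he1 hinj
  have t1 : Tendsto (fun n : ℕ => K * (C' * a ^ n)) atTop (𝓝 0) := by
    have := (((tendsto_pow_atTop_nhds_zero_of_lt_one hE.a_pos.le hE.a_lt).const_mul
      C').const_mul K)
    simpa [Function.comp_def] using this
  have t2 : Tendsto (fun n : ℕ => K * (C' * b ^ n)) atTop (𝓝 0) := by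
    have := (((tendsto_pow_atTop_nhds_zero_of_lt_one hE.b_pos.le hE.b_lt).const_mul
      C').const_mul K)
    simpa [Function.comp_def] using this
  obtain ⟨n, hn1, hn2⟩ := (((tendsto_order.mp t1).2 (1 / 16) (by norm_num)).and
    ((tendsto_order.mp t2).2 (1 / 16) (by norm_num))).exists
  obtain ⟨S, hS⟩ := exists_realizes hiso he1 hinj hE K hK hang n hn1.le hn2.le
  have hSg : ∀ x, S.g x = f^[n] x := fun x => by rw [hS.g_eq]; rfl
  have hSg' : ∀ x, S.g.symm x = f.symm^[n] x := fun x => by rw [hS.g_eq]; rfl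
  -- tangent spaces of the fibres
  let T : M → Submodule ℝ (EuclideanSpace ℝ (Fin m)) := fun x =>
    (LinearMap.ker (di E E' p x).toLinearMap).map (dm E e x).toLinearMap
  have hTm : ∀ z w, w ∈ T z ↔ ∃ v, di E E' p z v = 0 ∧ dm E e z v = w := by
    intro z w
    exact Iff.rfl
  have sm := iter_smooth f f.contMDiff n
  have sm' := iter_smooth f.symm f.symm.contMDiff n
  have smg := iter_smooth g g.contMDiff n
  have smg' := iter_smooth g.symm g.symm.contMDiff n
  have hSub : Sub S univ p T := {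
    inv := fun x => by simp
    lab := fun x y => by
      rw [hSg, hSg, hfn, hfn]
      exact (g.injective.iterate n).eq_iff
    le := by
      rintro x - w hw
      obtain ⟨v, -, rfl⟩ := (hTm x w).mp hw
      obtain ⟨s, hs, u, hu, hsu⟩ := hE.decomp x v
      rw [← hsu, map_add]
      refine Submodule.add_mem_sup ?_ ?_
      · rw [hS.Vs_eq]; exact ⟨s, hs, rfl⟩
      · rw [hS.Vu_eq]; exact ⟨u, hu, rfl⟩
    mapT := by
      rintro x - w hw
      obtain ⟨v, hv, rfl⟩ := (hTm x w).mp hw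
      rw [hS.D_eq, hSg, hTm]
      refine ⟨dg E (f^[n]) x v, ?_, rfl⟩
      rw [di_sq p hp (f^[n]) sm (g^[n]) smg (hfn n) x v, hv, map_zero]
    mapT' := by
      rintro x - w hw
      obtain ⟨v, hv, rfl⟩ := (hTm x w).mp hw
      rw [hS.D'_eq, hSg', hTm]
      refine ⟨dg E (f.symm^[n]) x v, ?_, rfl⟩
      rw [di_sq p hp (f.symm^[n]) sm' (g.symm^[n]) smg' (hfn' n) x v, hv, map_zero]
    diff := by
      intro η hη
      set η' := η / (1 + K₀) with hη'
      have hη'0 : 0 < η' := div_pos hη (by linarith)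
      have hη'e : (1 + K₀) * η' = η := by rw [hη']; field_simp
      have hP : ∃ r > 0, ∀ x y : M, dist x y < r → ∃ v : E,
          ‖e y - e x - dm E e x v‖ ≤ η' * ‖e y - e x‖ ∧
          ‖(e' ∘ p) y - (e' ∘ p) x - dm E (e' ∘ p) x v‖ ≤ η' * ‖e y - e x‖ := by
        apply exists_uniform_radius
        intro x₀
        obtain ⟨-, h1⟩ := local_all e he1 hinj (e' ∘ p) hh x₀
        obtain ⟨W, hW, r, hr, h2, -, -⟩ := h1 η' hη'0
        exact ⟨W, hW, fun x hx y hy => h2 x hx y hy⟩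
      obtain ⟨r, hr, hP⟩ := hP
      refine ⟨r, hr, ?_⟩
      rintro x - y - hxy hd
      obtain ⟨v, h1, h2⟩ := hP x y hd
      have e1 : (e' ∘ p) y = (e' ∘ p) x := congrArg e' hxy.symm
      rw [e1, sub_self, zero_sub, norm_neg] at h2
      obtain ⟨v', h3, h4⟩ := hkp x v
      refine ⟨dm E e x v', (hTm x _).mpr ⟨v', (hker x v').mp h3, rfl⟩, ?_⟩
      rw [hS.e_eq, hiso, norm_sub_rev (e x)]
      have e2 : e y - e x - dm E e x v' = (e y - e x - dm E e x v) + dm E e x (v - v') := by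
        rw [map_sub]; abel
      rw [e2]
      calc _ ≤ ‖e y - e x - dm E e x v‖ + ‖dm E e x (v - v')‖ := norm_add_le _ _
        _ ≤ η' * ‖e y - e x‖ + K₀ * (η' * ‖e y - e x‖) :=
            add_le_add h1 (h4.trans (mul_le_mul_of_nonneg_left h2 hK₀.le))
        _ = ((1 + K₀) * η') * ‖e y - e x‖ := by ring
        _ = _ := by rw [hη'e]
    cont := by
      intro η hη
      set η' := η / (1 + K₀) with hη'
      have hη'0 : 0 < η' := div_pos hη (by linarith)
      have hη'e : (1 + K₀) * η' = η := by rw [hη']; field_simp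
      have hP : ∃ r > 0, ∀ x y : M, dist x y < r → ∀ v : E, ∃ w : E,
          ‖dm E e x v - dm E e y w‖ ≤ η' * ‖dm E e x v‖ ∧
          ‖dm E (e' ∘ p) x v - dm E (e' ∘ p) y w‖ ≤ η' * ‖dm E e x v‖ := by
        apply exists_uniform_radius
        intro x₀
        obtain ⟨-, h1⟩ := local_all e he1 hinj (e' ∘ p) hh x₀
        obtain ⟨W, hW, r, hr, -, -, h2⟩ := h1 η' hη'0
        exact ⟨W, hW, fun x hx y hy v => h2 x hx y hy v⟩
      obtain ⟨r, hr, hP⟩ := hP
      refine ⟨r, hr, ?_⟩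
      rintro x - y - hxy w hw
      obtain ⟨v, hv, rfl⟩ := (hTm x w).mp hw
      obtain ⟨w, h1, h2⟩ := hP x y hxy v
      rw [(hker x v).mpr hv, zero_sub, norm_neg] at h2
      obtain ⟨w', h3, h4⟩ := hkp y w
      refine ⟨dm E e y w', (hTm y _).mpr ⟨w', (hker y w').mp h3, rfl⟩, ?_⟩
      have e2 : dm E e x v - dm E e y w' = (dm E e x v - dm E e y w) + dm E e y (w - w') := by
        rw [map_sub]; abel
      rw [e2]
      calc _ ≤ ‖dm E e x v - dm E e y w‖ + ‖dm E e y (w - w')‖ := norm_add_le _ _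
        _ ≤ η' * ‖dm E e x v‖ + K₀ * (η' * ‖dm E e x v‖) :=
            add_le_add h1 (h4.trans (mul_le_mul_of_nonneg_left h2 hK₀.le))
        _ = ((1 + K₀) * η') * ‖dm E e x v‖ := by ring
        _ = _ := by rw [hη'e] }
  have hset : ∀ x : M, {y | y ∈ (univ : Set M) ∧ p x = p y} = {y | p x = p y} := by
    intro x
    ext y
    exact ⟨fun h => h.2, fun h => ⟨trivial, h⟩⟩
  have hun : ∀ V : Submodule ℝ E, (∃ v ∈ T x, v ∈ V.map (dm E e x).toLinearMap ∧ v ≠ 0) →
      ∃ w : E, w ≠ 0 ∧ di E E' p x w = 0 ∧ w ∈ V := by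
    rintro V ⟨v, hv, ⟨s, hs, hsv⟩, hv0⟩
    obtain ⟨w, hw0, rfl⟩ := (hTm x v).mp hv
    have h1 : s = w := hinj x hsv
    refine ⟨w, fun h0 => hv0 ?_, hw0, ?_⟩
    · rw [h0, map_zero]
    · rw [← h1]; exact hs
  constructor
  · obtain ⟨v, h1, h2, h3⟩ := exists_stable hSub isCompact_univ (fun x _ => by
      rw [hset x]; exact hcon x) (fun x _ => by rw [hset x]; exact hinf x) (mem_univ x)
    rw [hS.Vs_eq] at h2
    exact hun _ ⟨v, h1, h2, h3⟩
  · obtain ⟨v, h1, h2, h3⟩ := exists_unstable hSub isCompact_univ (fun x _ => by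
      rw [hset x]; exact hcon x) (fun x _ => by rw [hset x]; exact hinf x) (mem_univ x)
    rw [hS.Vu_eq] at h2
    exact hun _ ⟨v, h1, h2, h3⟩

end dir

end Pool.Agent.R189.Fb
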