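import Pool.Agent.R189.Fb3
import Pool.Agent.Y331.EP.Fin

/-!
# Anosov diffeomorphisms preserving a fibration by surfaces
-/

set_option autoImplicit false
set_option linter.unusedSectionVars false

open scoped Manifold ContDiff Topology Bundle
open Set Filter Bundle

namespace Pool.Agent.R189.Fb

open Pool.Agent.H721R2 Pool.Agent.H789R2.AN Pool.Agent.H779R2.An Pool.Agent.R189.IS
  Pool.Agent.R189.Sf

section opn
variable {E : Type*} [NormedAddCommGroup E] [NormedSpace ℝ E] [FiniteDimensional ℝ E]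
  {M : Type*} [TopologicalSpace M] [ChartedSpace E M]
  {E' : Type*} [NormedAddCommGroup E'] [NormedSpace ℝ E'] [FiniteDimensional ℝ E']
  {B : Type*} [TopologicalSpace B] [ChartedSpace E' B]

/-- submersions are open -/
theorem subm_open (p : M → B) (hp : ContMDiff 𝓘(ℝ, E) 𝓘(ℝ, E') 1 p)
    (hs : ∀ x, Function.Surjective (mfderiv 𝓘(ℝ, E) 𝓘(ℝ, E') p x)) : IsOpenMap p := by
  have := FiniteDimensional.complete ℝ E
  have := FiniteDimensional.complete ℝ E'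
  rw [isOpenMap_iff_nhds_le]
  intro x
  set φ := extChartAt 𝓘(ℝ, E) x with hφ
  set ψ := extChartAt 𝓘(ℝ, E') (p x) with hψ
  set q : E → E' := ψ ∘ p ∘ φ.symm with hq
  obtain ⟨hc, hd⟩ := contMDiffAt_iff.mp (hp x)
  have hd' : ContDiffAt ℝ 1 q (φ x) := by
    have h1 : range (𝓘(ℝ, E) : ModelWithCorners ℝ E E) = univ := by simp
    rw [h1, contDiffWithinAt_univ] at hd
    exact hd
  have hst : HasStrictFDerivAt q (fderiv ℝ q (φ x)) (φ x) := hd'.hasStrictFDerivAt (by norm_num)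
  have hmd : mfderiv 𝓘(ℝ, E) 𝓘(ℝ, E') p x = fderiv ℝ q (φ x) := by
    rw [((hp x).mdifferentiableAt (by norm_num)).mfderiv]
    have h1 : range (𝓘(ℝ, E) : ModelWithCorners ℝ E E) = univ := by simp
    rw [h1, fderivWithin_univ]
    rfl
  have hsur : LinearMap.range (fderiv ℝ q (φ x)).toLinearMap = ⊤ := by
    rw [LinearMap.range_eq_top]
    have := hs x
    rw [hmd] at this
    exact this
  have h2 := hst.map_nhds_eq_of_surj hsur
  have h3 : p =ᶠ[𝓝 x] ψ.symm ∘ q ∘ φ := by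
    have h4 : ∀ᶠ y in 𝓝 x, p y ∈ ψ.source := hc.eventually (extChartAt_source_mem_nhds (p x))
    filter_upwards [extChartAt_source_mem_nhds (I := 𝓘(ℝ, E)) x, h4] with y hy hy'
    show p y = ψ.symm (ψ (p (φ.symm (φ y))))
    rw [φ.left_inv hy, ψ.left_inv hy']
  rw [Filter.map_congr h3, ← Filter.map_map, ← Filter.map_map, hφ,
    map_extChartAt_nhds_of_boundaryless (I := 𝓘(ℝ, E)) x, ← hφ, h2]
  have h5 : q (φ x) = ψ (p x) := by
    show ψ (p (φ.symm (φ x))) = _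
    rw [φ.left_inv (mem_extChartAt_source x)]
  rw [h5, hψ]
  have h6 := map_extChartAt_symm_nhdsWithin_range (I := 𝓘(ℝ, E')) (p x)
  have h1 : range (𝓘(ℝ, E') : ModelWithCorners ℝ E' E') = univ := by simp
  rw [h1, nhdsWithin_univ] at h6
  rw [h6]

end opn

section main
variable {E : Type*} [NormedAddCommGroup E] [NormedSpace ℝ E] [FiniteDimensional ℝ E]
  {M : Type*} [TopologicalSpace M] [T2Space M] [CompactSpace M] [ChartedSpace E M]
  [IsManifold 𝓘(ℝ, E) ∞ M]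
  {E' : Type*} [NormedAddCommGroup E'] [NormedSpace ℝ E'] [FiniteDimensional ℝ E']
  {B : Type*} [TopologicalSpace B] [T2Space B] [CompactSpace B] [ChartedSpace E' B]
  [IsManifold 𝓘(ℝ, E') ∞ B]

/-- **The base of an invariant fibration by surfaces.** -/
theorem fib_base (f : Diffeomorph 𝓘(ℝ, E) 𝓘(ℝ, E) M M 1)
    (Es Eu : ∀ x : M, Submodule ℝ (TangentSpace 𝓘(ℝ, E) x)) (hA : IsAnosov f Es Eu)
    (p : M → B) (hp : ContMDiff 𝓘(ℝ, E) 𝓘(ℝ, E') 1 p)
    (hps : ∀ x, Function.Surjective (mfderiv 𝓘(ℝ, E) 𝓘(ℝ, E') p x)) (hsur : Function.Surjective p)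
    (hdim : Module.finrank ℝ E = Module.finrank ℝ E' + 2)
    (g : Diffeomorph 𝓘(ℝ, E') 𝓘(ℝ, E') B B 1) (hfg : ∀ x, p (f x) = g (p x))
    (hcon : ∀ x, IsPreconnected {y | p x = p y}) (hinf : ∀ x, {y | p x = p y}.Infinite) :
    ∃ Es' Eu' : ∀ y : B, Submodule ℝ (TangentSpace 𝓘(ℝ, E') y), IsAnosov g Es' Eu' := by
  classical
  have hker2 : ∀ x, Module.finrank ℝ (LinearMap.ker (di E E' p x).toLinearMap) = 2 := by
    intro x
    have h1 := LinearMap.finrank_range_add_finrank_ker (di E E' p x).toLinearMap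
    have h2 : LinearMap.range (di E E' p x).toLinearMap = ⊤ := LinearMap.range_eq_top.mpr (hps x)
    rw [h2, finrank_top] at h1
    omega
  have hdir := fib_dir f Es Eu hA p hp 2 hker2 g hfg hcon hinf
  obtain ⟨m, e, he, hemb, hinj⟩ := exists_embedding_euclidean_of_compact (I := 𝓘(ℝ, E)) (M := M)
  let _ : MetricSpace M := hemb.isEmbedding.comapMetricSpace e
  have he1 : ContMDiff 𝓘(ℝ, E) (𝓡 m) 1 e := he.of_le (by simp)
  obtain ⟨m', e', he', hemb', hinj'⟩ :=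
    exists_embedding_euclidean_of_compact (I := 𝓘(ℝ, E')) (M := B)
  have he1' : ContMDiff 𝓘(ℝ, E') (𝓡 m') 1 e' := he'.of_le (by simp)
  have hh : ContMDiff 𝓘(ℝ, E) (𝓡 m') 1 (e' ∘ p) := he1'.comp hp
  have hdp : ∀ z v, dm E (e' ∘ p) z v = dm E' e' (p z) (di E E' p z v) := dm_comp_di e' he1' p hp
  have hker : ∀ z v, dm E (e' ∘ p) z v = 0 ↔ di E E' p z v = 0 := fun z v => by
    rw [hdp]
    constructor
    · intro h0
      exact hinj' _ (h0.trans (map_zero _).symm)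
    · intro h0
      rw [h0, map_zero]
  obtain ⟨K₀, hK₀, hkp⟩ := ker_unif e he1 (e' ∘ p) hh 2 (fun x => by
    have h1 : LinearMap.ker (dm E (e' ∘ p) x).toLinearMap =
        LinearMap.ker (di E E' p x).toLinearMap := by
      ext v
      exact hker x v
    rw [h1, hker2 x])
  obtain ⟨C', a, b, Ls, Lu, hE⟩ := eanosov_of_isAnosov e he1 hinj f Es Eu hA
  obtain ⟨K, hK, hang⟩ := hE.angle he1 hinj
  obtain ⟨R, hR, hRv⟩ : ∃ R > 0, ∀ x : M, ∀ v : E,
      ‖dm E (e' ∘ p) x v‖ ≤ R * ‖dm E e x v‖ := by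
    apply exists_uniform_const
    · intro C C' x hCC' h v
      exact (h v).trans (mul_le_mul_of_nonneg_right hCC' (norm_nonneg _))
    · intro x₀
      obtain ⟨⟨C, hC, h1⟩, -⟩ := local_all e he1 hinj (e' ∘ p) hh x₀
      refine ⟨C * C, ?_⟩
      filter_upwards [h1] with x hx v
      obtain ⟨h2, h3⟩ := hx v
      calc _ ≤ C * ‖dm E (extChartAt 𝓘(ℝ, E) x₀) x v‖ := h3
        _ ≤ C * (C * ‖dm E e x v‖) := mul_le_mul_of_nonneg_left h2 hC.le
        _ = _ := by ring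
  have hlin : ∀ (V A A' : Submodule ℝ E), Module.finrank ℝ V = 2 → A ⊓ A' = ⊥ →
      (∃ w ∈ V, w ≠ 0 ∧ w ∈ A) → (∃ w ∈ V, w ≠ 0 ∧ w ∈ A') → ∀ v ∈ V, ∃ s ∈ A, ∃ u ∈ A',
      s ∈ V ∧ u ∈ V ∧ s + u = v := by
    rintro V A A' hV hAA ⟨w, hw, hw0, hwA⟩ ⟨w', hw', hw0', hwA'⟩ v hv
    have h1 : 1 ≤ Module.finrank ℝ (V ⊓ A : Submodule ℝ E) := by
      by_contra hcn
      have h0 : Module.finrank ℝ (V ⊓ A : Submodule ℝ E) = 0 := by omega
      rw [Submodule.finrank_eq_zero] at h0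
      have h2 : w ∈ (V ⊓ A : Submodule ℝ E) := ⟨hw, hwA⟩
      rw [h0] at h2
      exact hw0 h2
    have h1' : 1 ≤ Module.finrank ℝ (V ⊓ A' : Submodule ℝ E) := by
      by_contra hcn
      have h0 : Module.finrank ℝ (V ⊓ A' : Submodule ℝ E) = 0 := by omega
      rw [Submodule.finrank_eq_zero] at h0
      have h2 : w' ∈ (V ⊓ A' : Submodule ℝ E) := ⟨hw', hwA'⟩
      rw [h0] at h2
      exact hw0' h2
    have h3 : (V ⊓ A) ⊓ (V ⊓ A') = (⊥ : Submodule ℝ E) := by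
      rw [eq_bot_iff]
      rintro z ⟨⟨-, hz1⟩, ⟨-, hz2⟩⟩
      have h4 : z ∈ A ⊓ A' := ⟨hz1, hz2⟩
      rwa [hAA] at h4
    have h4 := Submodule.finrank_sup_add_finrank_inf_eq (V ⊓ A) (V ⊓ A')
    rw [h3, finrank_bot] at h4
    have h5 : (V ⊓ A) ⊔ (V ⊓ A') ≤ V := sup_le inf_le_left inf_le_left
    have h6 : (V ⊓ A) ⊔ (V ⊓ A') = V := Submodule.eq_of_le_of_finrank_le h5 (by omega)
    have h7 : v ∈ (V ⊓ A) ⊔ (V ⊓ A') := by rw [h6]; exact hv
    obtain ⟨s, hs, u, hu, hsu⟩ := Submodule.mem_sup.mp h7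
    exact ⟨s, hs.2, u, hu.2, hs.1, hu.1, hsu⟩
  have hFD : FD (E' := E') e e' p f.toHomeomorph g.toHomeomorph Es Eu C' a b Ls Lu K K₀ R := {
    an := hE
    psm := hp
    surj := hps
    fg := hfg
    gsm := g.contMDiff
    gsm' := g.symm.contMDiff
    inj' := hinj'
    K_pos := by linarith
    ang := hang
    K₀_pos := hK₀
    ker := fun x v => by
      obtain ⟨v', h1, h2⟩ := hkp x v
      rw [hdp] at h2
      exact ⟨v', (hker x v').mp h1, h2⟩
    R_pos := hR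
    up := fun x v => by
      have := hRv x v
      rwa [hdp] at this
    split := fun x v hv => by
      obtain ⟨⟨w, hw0, hw, hwA⟩, ⟨w', hw0', hw', hwA'⟩⟩ := hdir x
      obtain ⟨s, hs, u, hu, h1, h2, h3⟩ := hlin (LinearMap.ker (di E E' p x).toLinearMap)
        (Es x) (Eu x) (hker2 x) (hA.isCompl x).inf_eq_bot ⟨w, hw, hw0, hwA⟩ ⟨w', hw', hw0', hwA'⟩
        v hv
      exact ⟨s, hs, u, hu, h1, h2, h3⟩ }
  exact ⟨_, _, hFD.base he1' g (fun y => Function.surjInv_eq hsur y)⟩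

/-- transitivity passes to factors -/
theorem trans_factor {X Y : Type*} [TopologicalSpace X] [TopologicalSpace Y] {φ : X → X}
    {ψ : Y → Y} {p : X → Y} (hc : Continuous p) (hs : Function.Surjective p)
    (h : ∀ x, p (φ x) = ψ (p x)) (ht : TopTransitive φ) : TopTransitive ψ := by
  intro U V hU hUn hV hVn
  have hn : ∀ (n : ℕ) (x : X), p (φ^[n] x) = ψ^[n] (p x) := by
    intro n
    induction n with
    | zero => intro z; rfl
    | succ n ih => intro z; rw [Function.iterate_succ_apply', h, ih, Function.iterate_succ_apply']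
  obtain ⟨u, hu⟩ := hUn
  obtain ⟨v, hv⟩ := hVn
  obtain ⟨u', rfl⟩ := hs u
  obtain ⟨v', rfl⟩ := hs v
  obtain ⟨n, _, ⟨x, hx, rfl⟩, hxv⟩ := ht (p ⁻¹' U) (p ⁻¹' V) (hU.preimage hc) ⟨u', hu⟩
    (hV.preimage hc) ⟨v', hv⟩
  refine ⟨n, ψ^[n] (p x), ⟨p x, hx, rfl⟩, ?_⟩
  rw [← hn]
  exact hxv

/-- transitivity passes to extensions with surface fibres -/
theorem fib_trans [ConnectedSpace M] [ConnectedSpace B]
    (f : Diffeomorph 𝓘(ℝ, E) 𝓘(ℝ, E) M M 1)
    (hf2 : ContMDiff 𝓘(ℝ, E) 𝓘(ℝ, E) 2 f) (hf2' : ContMDiff 𝓘(ℝ, E) 𝓘(ℝ, E) 2 f.symm)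
    (Es Eu : ∀ x : M, Submodule ℝ (TangentSpace 𝓘(ℝ, E) x)) (hA : IsAnosov f Es Eu)
    (p : M → B) (hp : ContMDiff 𝓘(ℝ, E) 𝓘(ℝ, E') 1 p)
    (hps : ∀ x, Function.Surjective (mfderiv 𝓘(ℝ, E) 𝓘(ℝ, E') p x))
    {E₂ : Type*} [NormedAddCommGroup E₂] [NormedSpace ℝ E₂] [FiniteDimensional ℝ E₂]
    (h2 : Module.finrank ℝ E₂ = 2)
    {Q : Type*} [TopologicalSpace Q] [CompactSpace Q] [ConnectedSpace Q] [ChartedSpace E₂ Q]
    [IsManifold 𝓘(ℝ, E₂) ∞ Q]
    (hQ : ∀ y : B, ∃ j : Q → M, ContMDiff 𝓘(ℝ, E₂) 𝓘(ℝ, E) 2 j ∧ Function.Injective j ∧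
      (∀ z, Function.Injective (mfderiv 𝓘(ℝ, E₂) 𝓘(ℝ, E) j z)) ∧ range j = p ⁻¹' {y})
    (g : Diffeomorph 𝓘(ℝ, E') 𝓘(ℝ, E') B B 1) (hfg : ∀ x, p (f x) = g (p x))
    (Es' Eu' : ∀ y : B, Submodule ℝ (TangentSpace 𝓘(ℝ, E') y)) (hB : IsAnosov g Es' Eu')
    (hg : TopTransitive g) : TopTransitive f := by
  obtain ⟨m', e', he', hemb', hinj'⟩ :=
    exists_embedding_euclidean_of_compact (I := 𝓘(ℝ, E')) (M := B)
  let _ : MetricSpace B := hemb'.isEmbedding.comapMetricSpace e'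
  obtain ⟨y₀, hy₀⟩ := Pool.Agent.Y331.EP.man_pp g Es' Eu' hB hg
  obtain ⟨k, hk, hky⟩ := hy₀
  have hky' : g^[k] y₀ = y₀ := hky
  have hfn : ∀ (n : ℕ) (x : M), p (f^[n] x) = g^[n] (p x) := by
    intro n
    induction n with
    | zero => intro z; rfl
    | succ n ih => intro z; rw [Function.iterate_succ_apply', hfg, ih, Function.iterate_succ_apply']
  obtain ⟨j, hj, hji, hjd, hjr⟩ := hQ y₀
  have hinv : f^[k] '' range j = range j := by
    rw [hjr]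
    apply Subset.antisymm
    · rintro _ ⟨x, hx, rfl⟩
      have hx' : p x = y₀ := hx
      show p (f^[k] x) = y₀
      rw [hfn, hx', hky']
    · intro x hx
      have hx' : p x = y₀ := hx
      refine ⟨f.symm^[k] x, ?_, (Function.LeftInverse.iterate f.apply_symm_apply k) x⟩
      show p (f.symm^[k] x) = y₀
      have h3 : p (f^[k] (f.symm^[k] x)) = g^[k] (p (f.symm^[k] x)) := hfn k _
      rw [(Function.LeftInverse.iterate f.apply_symm_apply k) x, hx'] at h3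
      exact (g.injective.iterate k) (h3.symm.trans hky'.symm)
  refine Pool.Agent.TH289.L.man_fibre f Es Eu hA (g := g.toHomeomorph) hg hp.continuous hfg
    (fun W hW hWn => ?_) (y₀ := y₀) (fun x hx x' hx' => ?_)
  · have h3 : IsOpen (p '' W) := subm_open p hp hps W hW
    rw [h3.interior_eq]
    exact hWn.image p
  · rw [← hjr] at hx hx'
    obtain ⟨z, rfl⟩ := hx
    obtain ⟨z', rfl⟩ := hx'
    exact fun 𝒰 hU => surf_chn h2 hj hji hjd f hf2 hf2' Es Eu hA hk hinv z z' 𝒰 hU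

/-- dimensions of the bundles of an Anosov diffeomorphism -/
theorem anosov_dims [ConnectedSpace M] [Nontrivial E] (f : Diffeomorph 𝓘(ℝ, E) 𝓘(ℝ, E) M M 1)
    (Es Eu : ∀ x : M, Submodule ℝ (TangentSpace 𝓘(ℝ, E) x)) (hA : IsAnosov f Es Eu) (x : M) :
    1 ≤ Module.finrank ℝ (Es x : Submodule ℝ E) ∧ 1 ≤ Module.finrank ℝ (Eu x : Submodule ℝ E) ∧
      Module.finrank ℝ (Es x : Submodule ℝ E) + Module.finrank ℝ (Eu x : Submodule ℝ E) =
        Module.finrank ℝ E := by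
  have hid : ContMDiff 𝓘(ℝ, E) 𝓘(ℝ, E) 1 (id : M → M) := contMDiff_id
  have hidd : ∀ z : M, Function.Injective (mfderiv 𝓘(ℝ, E) 𝓘(ℝ, E) (id : M → M) z) := fun z => by
    rw [mfderiv_id]
    exact fun a b h => h
  obtain ⟨⟨w, hw0, hw⟩, ⟨w', hw0', hw'⟩⟩ := exists_dir hid Function.injective_id hidd f Es Eu hA
    le_rfl f (fun z => rfl) x
  have e1 : ∀ v : E, di E E (id : M → M) x v = v := fun v => by
    show mfderiv 𝓘(ℝ, E) 𝓘(ℝ, E) (id : M → M) x v = v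
    rw [mfderiv_id]
    rfl
  rw [e1] at hw hw'
  have hpos : ∀ (V : Submodule ℝ E) (w : E), w ∈ V → w ≠ 0 → 1 ≤ Module.finrank ℝ V := by
    intro V w hw hw0
    by_contra hcon
    have h0 : Module.finrank ℝ V = 0 := by omega
    rw [Submodule.finrank_eq_zero] at h0
    rw [h0] at hw
    exact hw0 hw
  have hgen : ∀ A A' : Submodule ℝ E, IsCompl A A' →
      Module.finrank ℝ A + Module.finrank ℝ A' = Module.finrank ℝ E :=
    fun A A' h => Submodule.finrank_add_eq_of_isCompl h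
  exact ⟨hpos _ w hw hw0, hpos _ w' hw' hw0', hgen _ _ (hA.isCompl x)⟩

end main

end Pool.Agent.R189.Fb
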