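import Pool.Agent.TH289.L.Q4
import Pool.Agent.Y331.EP.Man

/-!
# Extensions of transitive homeomorphisms: the periodic fibres decide about transitivity
-/

set_option autoImplicit false
set_option linter.unusedSectionVars false

open Set Filter Topology Metric
open scoped Manifold ContDiff

namespace Pool.Agent.R189.PF

open Pool.Agent.H721R2 Pool.Agent.H789R2.AN Pool.Agent.TH289 Pool.Agent.TH289.L
  Pool.Agent.Y331.EP

/-- chains with jumps of size at most `δ` -/
abbrev Chn {X : Type*} [MetricSpace X] (f : X → X) (δ : ℝ) (x y : X) : Prop :=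
  Relation.ReflTransGen (fun a b => dist (f a) b ≤ δ) x y

section gen
variable {X : Type*} [MetricSpace X]

theorem orbit_chn (f : X → X) {δ : ℝ} (hδ : 0 ≤ δ) (n : ℕ) (a : X) : Chn f δ a (f^[n] a) := by
  induction n with
  | zero => exact Relation.ReflTransGen.refl
  | succ n ih =>
    refine ih.tail ?_
    show dist (f (f^[n] a)) (f^[n + 1] a) ≤ δ
    rw [Function.iterate_succ_apply' f, dist_self]
    exact hδ

/-- the limit set of the positive semiorbit -/
def Om (f : X → X) (x : X) : Set X := {w | MapClusterPt w atTop fun n : ℕ => f^[n] x}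

theorem om_freq {f : X → X} {x w : X} (h : w ∈ Om f x) {δ : ℝ} (hδ : 0 < δ) (k : ℕ) :
    ∃ n ≥ k, dist (f^[n] x) w < δ := by
  have h1 : ∃ᶠ n : ℕ in atTop, f^[n] x ∈ ball w δ :=
    (mapClusterPt_iff_frequently.mp h) _ (ball_mem_nhds w hδ)
  obtain ⟨n, hn, h2⟩ := (frequently_atTop.mp h1) k
  exact ⟨n, hn, h2⟩

theorem om_of_freq {f : X → X} {x w : X} (h : ∀ δ > 0, ∀ k : ℕ, ∃ n ≥ k, dist (f^[n] x) w < δ) :
    w ∈ Om f x := by
  refine mapClusterPt_iff_frequently.mpr fun s hs => ?_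
  obtain ⟨δ, hδ, hsub⟩ := Metric.mem_nhds_iff.mp hs
  rw [frequently_atTop]
  intro k
  obtain ⟨n, hn, h1⟩ := h δ hδ k
  exact ⟨n, hn, hsub h1⟩

theorem om_map {f : X → X} (hf : Continuous f) {x w : X} (h : w ∈ Om f x) : f w ∈ Om f x := by
  refine om_of_freq fun δ hδ k => ?_
  obtain ⟨η, hη, h1⟩ := Metric.continuous_iff.mp hf w δ hδ
  obtain ⟨n, hn, h2⟩ := om_freq h hη k
  refine ⟨n + 1, by omega, ?_⟩
  rw [Function.iterate_succ_apply']
  exact h1 _ h2

theorem om_iter {f : X → X} (hf : Continuous f) {x w : X} (h : w ∈ Om f x) (n : ℕ) :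
    f^[n] w ∈ Om f x := by
  induction n with
  | zero => exact h
  | succ n ih => rw [Function.iterate_succ_apply']; exact om_map hf ih

theorem om_closed (f : X → X) (x : X) : IsClosed (Om f x) := isClosed_setOfPred_clusterPt

theorem om_nonempty [CompactSpace X] (f : X → X) (x : X) : (Om f x).Nonempty := by
  obtain ⟨w, -, hw⟩ := isCompact_univ.exists_mapClusterPt (f := atTop)
    (u := fun n : ℕ => f^[n] x) (by simp)
  exact ⟨w, hw⟩

/-- limit sets are chain transitive -/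
theorem om_chn {f : X → X} (hf : Continuous f) {x w w' : X} (h : w ∈ Om f x) (h' : w' ∈ Om f x)
    {δ : ℝ} (hδ : 0 < δ) : Chn f δ w w' := by
  obtain ⟨n, -, h1⟩ := om_freq (om_map hf h) hδ 0
  obtain ⟨m, hm, h2⟩ := om_freq h' hδ (n + 1)
  obtain ⟨j, rfl⟩ := Nat.exists_eq_add_of_le hm
  have h3 : Chn f δ w (f^[n] x) := Relation.ReflTransGen.single (by rw [dist_comm]; exact h1.le)
  have h4 : Chn f δ (f^[n] x) (f^[n + j] x) := by
    have := orbit_chn f hδ.le j (f^[n] x)
    rwa [← Function.iterate_add_apply, Nat.add_comm j n] at this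
  refine (h3.trans h4).tail ?_
  have e1 : n + 1 + j = (n + j) + 1 := by ring
  rw [e1, Function.iterate_succ_apply'] at h2
  exact h2.le

/-- points of limit sets are nonwandering -/
theorem om_nw {f : X → X} {x w : X} (h : w ∈ Om f x) (U : Set X) (hU : IsOpen U) (hw : w ∈ U) :
    ∃ m : ℕ, 1 ≤ m ∧ (f^[m] '' U ∩ U).Nonempty := by
  obtain ⟨δ, hδ, hsub⟩ := Metric.isOpen_iff.mp hU w hw
  obtain ⟨n, -, h1⟩ := om_freq h hδ 0
  obtain ⟨m, hm, h2⟩ := om_freq h hδ (n + 1)
  obtain ⟨j, rfl⟩ := Nat.exists_eq_add_of_le hm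
  refine ⟨1 + j, by omega, f^[n + 1 + j] x, ⟨f^[n] x, hsub h1, ?_⟩, hsub h2⟩
  rw [← Function.iterate_add_apply]
  congr 1
  ring

/-- a closed chain through a point of a limit set, along one orbit -/
theorem loop_om {f : X → X} (hf : Continuous f) {k : ℕ} (hk : 1 ≤ k) {w0 w : X}
    (h : w ∈ Om (f^[k]) w0) {δ : ℝ} (hδ : 0 < δ) :
    ∃ n : ℕ, 1 ≤ n ∧ k ∣ n ∧ ∃ q : ℕ → X, q 0 = w ∧ q n = w ∧
      (∀ j < n, dist (f (q j)) (q (j + 1)) ≤ δ) ∧
      ∀ j, 0 < j → j < n → ∃ i, q j = f^[k * i + j] w0 := by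
  obtain ⟨η, hη, hcont⟩ := Metric.continuous_iff.mp hf w (δ / 2) (half_pos hδ)
  obtain ⟨i, -, h1⟩ := om_freq h hη 0
  obtain ⟨i', hi', h2⟩ := om_freq h (half_pos hδ) (i + 1)
  obtain ⟨l, rfl⟩ := Nat.exists_eq_add_of_le hi'
  rw [← Function.iterate_mul] at h1 h2
  set n := k * (l + 1) with hn
  have hn1 : 1 ≤ n := Nat.mul_pos (by omega) (by omega)
  set u : ℕ → X := fun j => f^[k * i + j] w0 with hu
  have hus : ∀ j, f (u j) = u (j + 1) := fun j => by
    show f (f^[k * i + j] w0) = f^[k * i + j + 1] w0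
    rw [Function.iterate_succ_apply']
  have hun : u n = f^[k * (i + 1 + l)] w0 := by
    show f^[k * i + n] w0 = _
    congr 1
    rw [hn]; ring
  refine ⟨n, hn1, Dvd.intro _ rfl, fun j => if j = 0 then w else if j = n then w else u j,
    by simp, by simp [show n ≠ 0 by omega], fun j hj => ?_, fun j h0 hj => ?_⟩
  · have e1 : dist (f (if j = 0 then w else if j = n then w else u j)) (u (j + 1)) ≤ δ / 2 := by
      by_cases h0 : j = 0
      · subst h0
        simp only [if_true]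
        have h3 := hcont _ h1
        rw [dist_comm, ← hus]
        have e3 : u 0 = f^[k * i] w0 := rfl
        rw [e3]
        exact h3.le
      · simp only [h0, if_false, show j ≠ n by omega]
        rw [hus, dist_self]
        exact (half_pos hδ).le
    have e2 : dist (u (j + 1)) (if j + 1 = 0 then w else if j + 1 = n then w else u (j + 1)) ≤
        δ / 2 := by
      simp only [show j + 1 ≠ 0 by omega, if_false]
      by_cases h0 : j + 1 = n
      · simp only [h0, if_true, hun]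
        exact h2.le
      · simp only [h0, if_false, dist_self]
        exact (half_pos hδ).le
    have e3 := dist_triangle (f (if j = 0 then w else if j = n then w else u j)) (u (j + 1))
      (if j + 1 = 0 then w else if j + 1 = n then w else u (j + 1))
    linarith
  · refine ⟨i, ?_⟩
    simp only [show j ≠ 0 by omega, if_false, show j ≠ n by omega]
    rfl

end gen

/-- Transitive homeomorphisms of compact metric spaces have a dense positive semiorbit, which
returns infinitely often. -/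
theorem exists_dense_orbit {Y : Type*} [MetricSpace Y] [CompactSpace Y] [Nonempty Y] {g : Y ≃ₜ Y}
    (ht : TopTransitive g) : ∃ y : Y, ∀ z, z ∈ Om g y := by
  set B := TopologicalSpace.countableBasis Y with hB
  have hBc : B.Countable := TopologicalSpace.countable_countableBasis Y
  have : Countable B := hBc.to_subtype
  have hd : Dense (⋂ p : B × ℕ, ⋃ n ≥ p.2, g^[n] ⁻¹' (p.1 : Set Y)) := by
    refine dense_iInter_of_isOpen (fun p => ?_) fun p => ?_
    · exact isOpen_iUnion fun n => isOpen_iUnion fun _ =>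
        (TopologicalSpace.isOpen_of_mem_countableBasis p.1.2).preimage (g.continuous.iterate n)
    · rw [dense_iff_inter_open]
      intro U hU hUn
      have hV : IsOpen (p.1 : Set Y) := TopologicalSpace.isOpen_of_mem_countableBasis p.1.2
      have hVn : (p.1 : Set Y).Nonempty := TopologicalSpace.nonempty_of_mem_countableBasis p.1.2
      have hgU : IsOpen (g^[p.2] '' U) := by
        have e1 : g^[p.2] '' U = g.symm^[p.2] ⁻¹' U := by
          have hl : Function.LeftInverse g.symm^[p.2] g^[p.2] :=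
            Function.LeftInverse.iterate g.symm_apply_apply p.2
          have hr : Function.RightInverse g.symm^[p.2] g^[p.2] :=
            Function.RightInverse.iterate g.apply_symm_apply p.2
          exact congrFun (image_eq_preimage_of_inverse hl hr) U
        rw [e1]
        exact hU.preimage (g.symm.continuous.iterate p.2)
      obtain ⟨n, _, ⟨_, ⟨x, hx, rfl⟩, rfl⟩, hy⟩ := ht _ _ hgU (hUn.image _) hV hVn
      refine ⟨x, hx, mem_iUnion₂.mpr ⟨n + p.2, by omega, ?_⟩⟩
      show g^[n + p.2] x ∈ (p.1 : Set Y)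
      rw [Function.iterate_add_apply]
      exact hy
  obtain ⟨y, hy⟩ := hd.nonempty
  rw [mem_iInter] at hy
  refine ⟨y, fun z => om_of_freq fun δ hδ k => ?_⟩
  obtain ⟨V, hVB, hzV, hVs⟩ := (TopologicalSpace.isBasis_countableBasis Y).mem_nhds_iff.mp
    (ball_mem_nhds z hδ)
  obtain ⟨n, hn, h1⟩ := mem_iUnion₂.mp (hy (⟨V, hVB⟩, k))
  exact ⟨n, hn, hVs h1⟩

section main
variable {X : Type*} [MetricSpace X] [CompactSpace X] {Y : Type*} [MetricSpace Y] [CompactSpace Y]

/-- a chain transitive set with full image -/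
theorem exists_full {f : X ≃ₜ X} {g : Y ≃ₜ Y} {p : X → Y} (hc : Continuous p)
    (hs : Function.Surjective p) (hfg : ∀ x, p (f x) = g (p x)) {y : Y} (hy : ∀ z, z ∈ Om g y) :
    ∃ x, ∀ z, ∃ w ∈ Om f x, p w = z := by
  obtain ⟨x, rfl⟩ := hs y
  refine ⟨x, fun z => ?_⟩
  have hpn : ∀ k : ℕ, ∀ x, p (f^[k] x) = g^[k] (p x) := fun k =>
    Function.Semiconj.iterate_right (f := p) (ga := f) (gb := g) hfg k
  have h1 : ∀ j : ℕ, ∃ n ≥ j, dist (g^[n] (p x)) z < 1 / ((j : ℝ) + 1) := fun j =>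
    om_freq (hy z) (by positivity) j
  choose n hn hd using h1
  obtain ⟨w, -, φ, hφ, hw⟩ := isCompact_univ.tendsto_subseq (x := fun j => f^[n j] x)
    fun _ => mem_univ _
  refine ⟨w, om_of_freq fun δ hδ k => ?_, ?_⟩
  · obtain ⟨j, h2, h3⟩ := ((Metric.tendsto_atTop.mp hw δ hδ).imp fun N hN => (⟨hN (max N k)
      (le_max_left _ _), le_max_right N k⟩ : dist ((fun j => f^[n j] x) (φ (max N k))) w < δ ∧
        k ≤ max N k)).imp fun N h => h
    exact ⟨n (φ (max j k)), h3.trans ((hφ.id_le _).trans (hn _)), h2⟩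
  · have h2 : Tendsto (fun i => p (f^[n (φ i)] x)) atTop (𝓝 (p w)) :=
      (hc.tendsto w).comp hw
    have h3 : Tendsto (fun i => p (f^[n (φ i)] x)) atTop (𝓝 z) := by
      rw [tendsto_iff_dist_tendsto_zero]
      refine squeeze_zero (fun _ => dist_nonneg) (fun i => ?_)
        ((tendsto_one_div_add_atTop_nhds_zero_nat (𝕜 := ℝ)).comp hφ.tendsto_atTop)
      rw [hpn]
      exact (hd _).le
    exact tendsto_nhds_unique h2 h3

/-- attractors contain periodic points -/
theorem att_per {f : X ≃ₜ X} {e : ℝ} (hE : Ex f e) (hSh : Shad f) {N : ℕ} (hN : 1 ≤ N) {c : ℝ}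
    (h : LP (iterHomeo f N) c) {A : Set X} (hA : IsAtt f A) :
    ∃ a ∈ A, a ∈ Function.periodicPts f := by
  obtain ⟨r, hr, hnear⟩ := h.near
  obtain ⟨a0, ha0⟩ := hA.nonempty
  obtain ⟨w, hw⟩ := om_nonempty f a0
  have hwA : w ∈ A := by
    rw [← hA.closed.closure_eq, Metric.mem_closure_iff]
    intro ε hε
    obtain ⟨n, -, hn⟩ := om_freq hw hε 0
    exact ⟨_, (inv_iter hA.inv n a0).mpr ha0, by rwa [dist_comm]⟩
  set ε := min (e / 2) (r / 2) with hε
  have hε0 : 0 < ε := lt_min (half_pos hE.pos) (half_pos hr)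
  obtain ⟨δ, hδ, hcl⟩ := closing hE hSh hε0 (by have := min_le_left (e / 2) (r / 2); linarith)
  have hw' : w ∈ Om (f^[1]) a0 := hw
  obtain ⟨n, hn, -, q, hq0, hqn, hq, -⟩ := loop_om f.continuous le_rfl hw' hδ
  obtain ⟨P, hP, hPd⟩ := hcl n hn q hq (hqn.trans hq0.symm)
  have hd : dist P w < r := by
    have h1 := hPd 0 (Nat.zero_le _)
    rw [hq0, Function.iterate_zero, id, dist_comm] at h1
    have h2 := min_le_right (e / 2) (r / 2)
    linarith
  obtain ⟨z, hz, hPz⟩ := hnear A (att_iter hA hN) w hwA P hd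
  refine ⟨P, ?_, ⟨n, hn, hP⟩⟩
  rw [← hA.closed.closure_eq, Metric.mem_closure_iff]
  intro ε' hε'
  obtain ⟨m, hm⟩ := geo_small c hε'
  have h3 := h.cS _ _ hPz (n * m)
  rw [iterHomeo_iter, iterHomeo_iter] at h3
  have h4 : f^[N * (n * m)] P = P := by
    rw [show N * (n * m) = n * (N * m) by ring, Function.iterate_mul]
    exact Function.iterate_fixed hP _
  rw [h4] at h3
  exact ⟨_, (inv_iter hA.inv _ z).mpr hz, h3.trans_lt (hm _ (Nat.le_mul_of_pos_left m (by omega)))⟩

/-- If each periodic point of an attractor and of a repeller is chain equivalent to a point of one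
chain transitive set, then all attractors are full. -/
theorem unique_of_chn {f : X ≃ₜ X} {e : ℝ} (hE : Ex f e) (hSh : Shad f) (hSh' : Shad f.symm)
    {N : ℕ} (hN : 1 ≤ N) {c : ℝ}
    (h : LP (iterHomeo f N) c) {x : X}
    (hch : ∀ a ∈ Function.periodicPts f, ∀ δ > 0, ∃ w ∈ Om f x, Chn f δ a w ∧ Chn f δ w a)
    (A : Set X) (hA : IsAtt f A) : A = univ := by
  by_contra hne
  obtain ⟨z, hz⟩ := (ne_univ_iff_exists_notMem A).mp hne
  obtain ⟨w, hw, -⟩ := exists_repeller h (att_iter hA hN) hz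
  have hw' : w ∉ Bas f A := fun ⟨a, ha, hwa⟩ => hw ⟨a, ha, (WS_iter_iff f hN _ _).mpr hwa⟩
  have hR : IsAtt f.symm (Bas f A)ᶜ := by
    refine ⟨(isOpen_bas' hN h hA).isClosed_compl, ⟨w, hw'⟩, fun x => ?_, fun x hx y hxy hy => ?_⟩
    · rw [mem_compl_iff, mem_compl_iff]
      exact not_congr (inv_symm (fun x => bas_map (fun _ => rfl) hA.inv x) x)
    · obtain ⟨a, ha, hya⟩ := hy
      exact hx ⟨a, ha, WS.trans hxy hya⟩
  have hLP' : LP (iterHomeo f.symm N) c := by
    rw [← iterHomeo_symm]; exact h.symm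
  have hE' : Ex f.symm e := by
    refine ⟨hE.pos, fun x y hx hy hd => ?_⟩
    have h1 := hE.exp (fun n => x (-n)) (fun n => y (-n)) (fun n => ?_) (fun n => ?_)
      (fun n => hd _)
    · simpa using h1
    · show x (-(n + 1)) = f (x (-n))
      have := hx (-(n + 1))
      rw [show -(n + 1) + 1 = -n by ring] at this
      rw [this, f.apply_symm_apply]
    · show y (-(n + 1)) = f (y (-n))
      have := hy (-(n + 1))
      rw [show -(n + 1) + 1 = -n by ring] at this
      rw [this, f.apply_symm_apply]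
  obtain ⟨a, ha, hap⟩ := att_per hE hSh hN h hA
  obtain ⟨r, hr, hrp⟩ := att_per hE' hSh' hN hLP' hR
  have hrp' : r ∈ Function.periodicPts f := by
    obtain ⟨n, hn, h1⟩ := hrp
    refine ⟨n, hn, ?_⟩
    have h2 : f^[n] (f.symm^[n] r) = r :=
      (Function.RightInverse.iterate f.apply_symm_apply n) r
    have h3 : f.symm^[n] r = r := h1
    rwa [h3] at h2
  obtain ⟨δ, hδ, hbc⟩ := bas_chain hN h hA
  obtain ⟨w1, hw1, h1, -⟩ := hch a hap δ hδ
  obtain ⟨w2, hw2, -, h2⟩ := hch r hrp' δ hδ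
  have h3 : Chn f δ a r := (h1.trans (om_chn f.continuous hw1 hw2 hδ)).trans h2
  rcases Relation.reflTransGen_iff_eq_or_transGen.mp h3 with h3 | h3
  · rw [h3] at hr
    exact hr (subset_bas f A ha)
  · obtain ⟨m, _, x, hx0, hxm, hx⟩ := path_of_transGen h3
    refine hr ?_
    rw [← hxm]
    exact hbc m x (by rw [hx0]; exact ha) hx

theorem shad_symm {f : X ≃ₜ X} (h : Shad f) : Shad f.symm := by
  intro ε hε
  obtain ⟨δ, hδ, h1⟩ := h ε hε
  obtain ⟨η, hη, h2⟩ : ∃ η > 0, ∀ a b, dist a b ≤ η → dist (f a) (f b) ≤ δ := by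
    have hu := CompactSpace.uniformContinuous_of_continuous f.continuous
    rw [Metric.uniformContinuous_iff] at hu
    obtain ⟨η, hη, h3⟩ := hu δ hδ
    exact ⟨η / 2, half_pos hη, fun a b hab => (h3 (by linarith)).le⟩
  refine ⟨η, hη, fun x hx => ?_⟩
  obtain ⟨y, hy, hyd⟩ := h1 (fun n => x (-n)) fun n => by
    show dist (f (x (-n))) (x (-(n + 1))) ≤ δ
    have h3 := hx (-(n + 1))
    rw [show -(n + 1) + 1 = -n by ring] at h3
    have h4 := h2 _ _ h3
    rw [f.apply_symm_apply, dist_comm] at h4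
    exact h4
  refine ⟨fun n => y (-n), fun n => ?_, fun n => ?_⟩
  · show y (-(n + 1)) = f.symm (y (-n))
    have := hy (-(n + 1))
    rw [show -(n + 1) + 1 = -n by ring] at this
    rw [this, f.symm_apply_apply]
  · have := hyd (-n)
    simpa using this

/-- periodic points are limit points of their orbits -/
theorem per_nw {f : X → X} {a : X} (ha : a ∈ Function.periodicPts f) (U : Set X)
    (_ : IsOpen U) (hU : a ∈ U) : ∃ m : ℕ, 1 ≤ m ∧ (f^[m] '' U ∩ U).Nonempty := by
  obtain ⟨n, hn, h⟩ := ha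
  exact ⟨n, hn, a, ⟨a, hU, h⟩, hU⟩

/-- the nonwandering points of the periodic fibres decide -/
theorem unique_of_nw {f : X ≃ₜ X} {e : ℝ} (hE : Ex f e) (hSh : Shad f)
    {N : ℕ} (hN : 1 ≤ N) {c : ℝ} (h : LP (iterHomeo f N) c) [Nonempty X]
    {g : Y ≃ₜ Y} (ht : TopTransitive g) {p : X → Y} (hc : Continuous p)
    (hs : Function.Surjective p) (hfg : ∀ x, p (f x) = g (p x))
    (hch : ∀ x x' : X, p x = p x' → p x ∈ Function.periodicPts g →
      (∀ U, IsOpen U → x ∈ U → ∃ m : ℕ, 1 ≤ m ∧ (f^[m] '' U ∩ U).Nonempty) →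
      (∀ U, IsOpen U → x' ∈ U → ∃ m : ℕ, 1 ≤ m ∧ (f^[m] '' U ∩ U).Nonempty) →
      ∀ δ > 0, Chn f δ x x')
    (A : Set X) (hA : IsAtt f A) : A = univ := by
  have : Nonempty Y := ‹Nonempty X›.map p
  obtain ⟨y, hy⟩ := exists_dense_orbit ht
  obtain ⟨x, hx⟩ := exists_full hc hs hfg hy
  refine unique_of_chn hE hSh (shad_symm hSh) hN h (x := x) (fun a ha δ hδ => ?_) A hA
  obtain ⟨w, hw, hwa⟩ := hx (p a)
  have hpn : ∀ k : ℕ, ∀ x, p (f^[k] x) = g^[k] (p x) := fun k =>
    Function.Semiconj.iterate_right (f := p) (ga := f) (gb := g) hfg k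
  have hpa : p a ∈ Function.periodicPts g := by
    obtain ⟨n, hn, h1⟩ := ha
    refine ⟨n, hn, ?_⟩
    have h2 : f^[n] a = a := h1
    show g^[n] (p a) = p a
    rw [← hpn, h2]
  exact ⟨w, hw, hch a w hwa.symm hpa (per_nw ha) (fun U hU hwU => om_nw hw U hU hwU) δ hδ,
    hch w a hwa (hwa ▸ hpa) (fun U hU hwU => om_nw hw U hU hwU) (per_nw ha) δ hδ⟩

/-- the periodic points of the fibres decide, over expansive homeomorphisms -/
theorem unique_of_per {f : X ≃ₜ X} {e : ℝ} (hE : Ex f e) (hSh : Shad f)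
    {N : ℕ} (hN : 1 ≤ N) {c : ℝ} (h : LP (iterHomeo f N) c) [Nonempty X]
    {g : Y ≃ₜ Y} {eg : ℝ} (hG : Ex g eg) (ht : TopTransitive g) {p : X → Y} (hc : Continuous p)
    (hs : Function.Surjective p) (hfg : ∀ x, p (f x) = g (p x))
    (hch : ∀ x ∈ Function.periodicPts f, ∀ x' ∈ Function.periodicPts f, p x = p x' →
      ∀ δ > 0, Chn f δ x x')
    (A : Set X) (hA : IsAtt f A) : A = univ := by
  have : Nonempty Y := ‹Nonempty X›.map p
  obtain ⟨y, hy⟩ := exists_dense_orbit ht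
  obtain ⟨x, hx⟩ := exists_full hc hs hfg hy
  have hpn : ∀ k : ℕ, ∀ x, p (f^[k] x) = g^[k] (p x) := fun k =>
    Function.Semiconj.iterate_right (f := p) (ga := f) (gb := g) hfg k
  refine unique_of_chn hE hSh (shad_symm hSh) hN h (x := x) (fun a ha δ hδ => ?_) A hA
  obtain ⟨w0, hw0, hwa⟩ := hx (p a)
  obtain ⟨k, hk, hka⟩ := ha
  have hka' : f^[k] a = a := hka
  have hgz : g^[k] (p a) = p a := by rw [← hpn, hka']
  have hgz' : ∀ i, g^[k * i] (p a) = p a := fun i => by
    rw [Function.iterate_mul]; exact Function.iterate_fixed hgz i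
  obtain ⟨w, hw⟩ := om_nonempty (f^[k]) w0
  -- the point `w` lies in the limit set and in the fibre
  have hwOm : w ∈ Om f x := by
    rw [← (om_closed f x).closure_eq, Metric.mem_closure_iff]
    intro ε hε
    obtain ⟨n, -, hn⟩ := om_freq hw hε 0
    rw [← Function.iterate_mul] at hn
    exact ⟨_, om_iter f.continuous hw0 (k * n), by rwa [dist_comm]⟩
  have hpw : p w = p a := by
    refine dist_le_zero.mp (le_of_forall_pos_lt_add fun ε hε => ?_)
    obtain ⟨η, hη, h1⟩ := Metric.continuous_iff.mp hc w ε hε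
    obtain ⟨n, -, hn⟩ := om_freq hw hη 0
    rw [← Function.iterate_mul] at hn
    have h2 := h1 _ hn
    rw [hpn, hwa, hgz', dist_comm] at h2
    linarith
  have hup : UniformContinuous p := CompactSpace.uniformContinuous_of_continuous hc
  have huf : UniformContinuous f := CompactSpace.uniformContinuous_of_continuous f.continuous
  rw [Metric.uniformContinuous_iff] at hup huf
  obtain ⟨η, hη, hηp⟩ := hup eg hG.pos
  obtain ⟨θ, hθ, hθf⟩ := huf δ hδ
  set ε := min (min (e / 2) (η / 2)) (min (θ / 2) δ) with hε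
  have hε0 : 0 < ε := lt_min (lt_min (half_pos hE.pos) (half_pos hη)) (lt_min (half_pos hθ) hδ)
  have hεe : ε ≤ e / 2 := (min_le_left _ _).trans (min_le_left _ _)
  have hεη : ε ≤ η / 2 := (min_le_left _ _).trans (min_le_right _ _)
  have hεθ : ε ≤ θ / 2 := (min_le_right _ _).trans (min_le_left _ _)
  have hεδ : ε ≤ δ := (min_le_right _ _).trans (min_le_right _ _)
  obtain ⟨δ', hδ', hcl⟩ := closing hE hSh hε0 (by linarith)
  obtain ⟨n, hn, ⟨l, rfl⟩, q, hq0, hqn, hq, hqi⟩ := loop_om f.continuous hk hw hδ'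
  obtain ⟨P, hP, hPd⟩ := hcl _ hn q hq (hqn.trans hq0.symm)
  have hpq : ∀ j ≤ k * l, p (q j) = g^[j] (p a) := by
    intro j hj
    rcases Nat.eq_zero_or_pos j with h0 | h0
    · rw [h0, hq0, hpw]; rfl
    · rcases hj.lt_or_eq with h1 | h1
      · obtain ⟨i, hi⟩ := hqi j h0 h1
        rw [hi, hpn, hwa, Nat.add_comm, Function.iterate_add_apply, hgz']
      · rw [h1, hqn, hpw, hgz']
  have hpP : p P = p a := by
    refine per_eq hG hn (p := p P) (p' := p a) ?_ (hgz' l) fun j hj => ?_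
    · rw [← hpn, hP]
    · rw [← hpn, ← hpq j hj.le]
      have h1 := hPd j hj.le
      rw [dist_comm] at h1
      exact (hηp (by linarith)).le
  have hPper : P ∈ Function.periodicPts f := ⟨_, hn, hP⟩
  have haper : a ∈ Function.periodicPts f := ⟨k, hk, hka⟩
  have hwP : dist w P ≤ ε := by
    have := hPd 0 (Nat.zero_le _)
    rwa [hq0] at this
  obtain ⟨n', hn'⟩ : ∃ n', k * l = n' + 1 := ⟨k * l - 1, by omega⟩
  have c1 : Chn f δ w P := by
    have h1 : Chn f δ w (f P) := Relation.ReflTransGen.single (hθf (by linarith)).le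
    have h2 := orbit_chn f hδ.le n' (f P)
    rw [← Function.iterate_succ_apply, Nat.succ_eq_add_one, ← hn', hP] at h2
    exact h1.trans h2
  have c2 : Chn f δ P w := by
    refine (orbit_chn f hδ.le n' P).tail ?_
    show dist (f (f^[n'] P)) w ≤ δ
    rw [← Function.iterate_succ_apply' f, Nat.succ_eq_add_one, ← hn', hP, dist_comm]
    linarith
  exact ⟨w, hwOm, (hch a haper P hPper hpP.symm δ hδ).trans c2,
    c1.trans (hch P hPper a haper hpP δ hδ)⟩

end main

/-- transitivity gives all chains -/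
theorem chn_of_trans {M : Type*} [TopologicalSpace M] [T2Space M] [CompactSpace M] {f : M → M}
    (ht : TopTransitive f) (x x' : M) (𝒰 : Set (M × M)) (hU : 𝒰 ∈ 𝓝ˢ (diagonal M))
    (hsurj : Function.Surjective f) (hc : Continuous f) :
    Relation.ReflTransGen (fun a b => (f a, b) ∈ 𝒰) x x' := by
  obtain ⟨V, hV, hdV, hVU⟩ := mem_nhdsSet_iff_exists.mp hU
  have h1 : IsOpen {b | (f x, b) ∈ V} := hV.preimage (by fun_prop)
  have h2 : IsOpen {a | (f a, x') ∈ V} := hV.preimage (by fun_prop)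
  obtain ⟨x'', hx''⟩ := hsurj x'
  obtain ⟨n, _, ⟨u, hu, rfl⟩, hv⟩ := ht _ _ h1 ⟨f x, hdV rfl⟩ h2 ⟨x'', hdV hx''⟩
  have h3 : Relation.ReflTransGen (fun a b => (f a, b) ∈ 𝒰) x u :=
    Relation.ReflTransGen.single (hVU hu)
  have h4 : ∀ k : ℕ, Relation.ReflTransGen (fun a b => (f a, b) ∈ 𝒰) u (f^[k] u) := by
    intro k
    induction k with
    | zero => exact Relation.ReflTransGen.refl
    | succ k ih =>
      refine ih.tail (hVU (hdV ?_))
      show f (f^[k] u) = f^[k + 1] u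
      rw [Function.iterate_succ_apply']
  exact (h3.trans (h4 n)).tail (hVU hv)

/-- the manifold version -/
theorem man_per {E : Type*} [NormedAddCommGroup E] [NormedSpace ℝ E] [FiniteDimensional ℝ E]
    {M : Type*} [TopologicalSpace M] [T2Space M] [CompactSpace M] [ConnectedSpace M]
    [ChartedSpace E M] [IsManifold 𝓘(ℝ, E) ∞ M] (f : Diffeomorph 𝓘(ℝ, E) 𝓘(ℝ, E) M M 1)
    (Es Eu : ∀ x : M, Submodule ℝ (TangentSpace 𝓘(ℝ, E) x)) (hA : IsAnosov f Es Eu)
    {Y : Type*} [MetricSpace Y] [CompactSpace Y]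
    {g : Y ≃ₜ Y} (ht : TopTransitive g) {p : M → Y} (hc : Continuous p)
    (hs : Function.Surjective p) (hfg : ∀ x, p (f x) = g (p x))
    (hch : (∀ x x' : M, p x = p x' → p x ∈ Function.periodicPts g →
      (∀ U, IsOpen U → x ∈ U → ∃ m : ℕ, 1 ≤ m ∧ (f^[m] '' U ∩ U).Nonempty) →
      (∀ U, IsOpen U → x' ∈ U → ∃ m : ℕ, 1 ≤ m ∧ (f^[m] '' U ∩ U).Nonempty) →
      ∀ 𝒰 ∈ 𝓝ˢ (diagonal M), Relation.ReflTransGen (fun a b => (f a, b) ∈ 𝒰) x x') ∨
      (∃ c > 0, ∀ y z : Y, (∀ n : ℤ, dist ((g ^ n) y) ((g ^ n) z) ≤ c) → y = z) ∧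
      (∀ x ∈ Function.periodicPts f, ∀ x' ∈ Function.periodicPts f, p x = p x' →
      ∀ 𝒰 ∈ 𝓝ˢ (diagonal M), Relation.ReflTransGen (fun a b => (f a, b) ∈ 𝒰) x x')) :
    TopTransitive f := by
  refine man_nw f Es Eu hA ?_
  obtain ⟨m, ee, hee, hemb, hinje⟩ :=
    exists_embedding_euclidean_of_compact (I := 𝓘(ℝ, E)) (M := M)
  let _ : MetricSpace M := hemb.isEmbedding.comapMetricSpace ee
  have hiso : ∀ x y : M, dist x y = ‖ee x - ee y‖ := fun x y => dist_eq_norm (ee x) (ee y)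
  have he1 : ContMDiff 𝓘(ℝ, E) (𝓡 m) 1 ee := hee.of_le (by simp)
  obtain ⟨n, ⟨S, hg, -, -, -⟩, hn⟩ :=
    ((exists_sys_ev hiso he1 hinje f Es Eu hA).and (eventually_ge_atTop 1)).exists
  obtain ⟨c, hLP⟩ := exists_LP S
  rw [hg] at hLP
  obtain ⟨ef, hE⟩ := ex_of_expansive (expansive_of_anosov f Es Eu hA)
  have hSh := man_shad f Es Eu hA
  have key : ∀ x x' : M, (∀ 𝒰 ∈ 𝓝ˢ (diagonal M),
      Relation.ReflTransGen (fun a b => (f a, b) ∈ 𝒰) x x') → ∀ δ > 0,
      Chn f.toHomeomorph δ x x' := by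
    intro x x' h1 δ hδ
    have h2 : {q : M × M | dist q.1 q.2 < δ} ∈ 𝓝ˢ (diagonal M) := by
      rw [nhdsSet_diagonal_eq_uniformity]
      exact Metric.dist_mem_uniformity hδ
    have h3 := h1 _ h2
    clear h1
    induction h3 with
    | refl => exact Relation.ReflTransGen.refl
    | tail _ hab ih => exact ih.tail (le_of_lt hab)
  refine nw_of_unique S hn hg ?_
  rcases hch with h1 | ⟨⟨cg, hcg, h0⟩, h1⟩
  · exact unique_of_nw (f := f.toHomeomorph) hE hSh hn hLP ht hc hs hfg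
      fun x x' h2 h3 h4 h5 => key x x' (h1 x x' h2 h3 h4 h5)
  · have hG : Ex g cg := by
      refine ⟨hcg, fun x y hx hy hd => h0 _ _ fun n => ?_⟩
      rw [← orb_eq g hx n, ← orb_eq g hy n]
      exact hd n
    exact unique_of_per (f := f.toHomeomorph) hE hSh hn hLP hG ht hc hs hfg
      fun x hx x' hx' h2 => key x x' (h1 x hx x' hx' h2)

end Pool.Agent.R189.PF
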