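import Pool.Agent.H721R2.Embed

/-!
# Maps into immersed manifolds
-/

set_option autoImplicit false
set_option linter.unusedSectionVars false

open scoped Manifold ContDiff Topology Bundle
open Set Filter Bundle

namespace Pool.Agent.R189.Sf

open Pool.Agent.H721R2

variable {E : Type*} [NormedAddCommGroup E] [NormedSpace ℝ E] [FiniteDimensional ℝ E]
  {M : Type*} [TopologicalSpace M] [ChartedSpace E M] [IsManifold 𝓘(ℝ, E) ∞ M]
  {F : Type*} [NormedAddCommGroup F] [NormedSpace ℝ F] [FiniteDimensional ℝ F]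

theorem hatMap_contDiffAt2 (h : M → F) (hh : ContMDiff 𝓘(ℝ, E) 𝓘(ℝ, F) 2 h) (x₀ : M) (p : E)
    (hp : p ∈ (extChartAt 𝓘(ℝ, E) x₀).target) : ContDiffAt ℝ 2 (hatMap (E₀ := E) h x₀) p := by
  rw [← contMDiffAt_iff_contDiffAt]
  have h1 : ContMDiffOn 𝓘(ℝ, E) 𝓘(ℝ, E) 2 (extChartAt 𝓘(ℝ, E) x₀).symm
      (extChartAt 𝓘(ℝ, E) x₀).target := contMDiffOn_extChartAt_symm x₀
  have h2 : ContMDiffAt 𝓘(ℝ, E) 𝓘(ℝ, E) 2 (extChartAt 𝓘(ℝ, E) x₀).symm p :=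
    h1.contMDiffAt ((isOpen_extChartAt_target x₀).mem_nhds hp)
  exact ContMDiffAt.comp p hh.contMDiffAt h2

theorem hat_inj (e : M → F) (he : ContMDiff 𝓘(ℝ, E) 𝓘(ℝ, F) 1 e)
    (hinj : ∀ x, Function.Injective (dm E e x)) (x₀ : M) :
    Function.Injective (fderiv ℝ (hatMap (E₀ := E) e x₀) (extChartAt 𝓘(ℝ, E) x₀ x₀)) := by
  set φ := extChartAt 𝓘(ℝ, E) x₀ with hφ
  have hx₀ : x₀ ∈ φ.source := mem_extChartAt_source x₀
  obtain ⟨A, hA⟩ := isInvertible_mfderiv_extChartAt (I := 𝓘(ℝ, E)) hx₀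
  intro a b hab
  have h1 : ∀ w : E, dm E e x₀ (A.symm w) = fderiv ℝ (hatMap (E₀ := E) e x₀) (φ x₀) w := by
    intro w
    have h2 := hatMap_mfderiv e he x₀ x₀ hx₀ (A.symm w)
    rw [h2, ← hφ]
    have h3 : dm E φ x₀ (A.symm w) = w := by
      show mfderiv 𝓘(ℝ, E) 𝓘(ℝ, E) φ x₀ (A.symm w) = w
      rw [← hA]; exact A.apply_symm_apply w
    rw [h3]
  have h4 : A.symm a = A.symm b := by
    apply hinj x₀
    exact (h1 a).trans (hab.trans (h1 b).symm)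
  exact A.symm.injective h4

variable {M' : Type*} [TopologicalSpace M'] [ChartedSpace E M'] [IsManifold 𝓘(ℝ, E) ∞ M']

/-- A continuous map is `C²` if its composition with a `C²` immersion is. -/
theorem smooth_of_comp {h : M → F} (hh : ContMDiff 𝓘(ℝ, E) 𝓘(ℝ, F) 2 h)
    (hinj : ∀ x, Function.Injective (dm E h x)) {G : M' → M} (hG : Continuous G)
    (hGh : ContMDiff 𝓘(ℝ, E) 𝓘(ℝ, F) 2 (h ∘ G)) : ContMDiff 𝓘(ℝ, E) 𝓘(ℝ, E) 2 G := by
  intro z₀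
  rw [contMDiffAt_iff_target]
  refine ⟨hG.continuousAt, ?_⟩
  set w₀ := G z₀ with hw₀
  set κ := extChartAt 𝓘(ℝ, E) w₀ with hκ
  set ψ : E → F := hatMap (E₀ := E) h w₀ with hψ
  have hw : w₀ ∈ κ.source := mem_extChartAt_source w₀
  have hψ2 : ContDiffAt ℝ 2 ψ (κ w₀) := hatMap_contDiffAt2 h hh w₀ _ (κ.map_source hw)
  have hAi := hat_inj h (hh.of_le (by norm_num)) hinj w₀
  obtain ⟨L, hL⟩ := LinearMap.exists_leftInverse_of_injective
    (fderiv ℝ ψ (κ w₀)).toLinearMap (LinearMap.ker_eq_bot.mpr hAi)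
  set L' : F →L[ℝ] E := LinearMap.toContinuousLinearMap L with hL'
  have hL'' : ∀ v, L' (fderiv ℝ ψ (κ w₀) v) = v := fun v => LinearMap.congr_fun hL v
  set Φ : E → E := L' ∘ ψ with hΦ
  have hΦ2 : ContDiffAt ℝ 2 Φ (κ w₀) := L'.contDiff.contDiffAt.comp _ hψ2
  have hΦd : HasFDerivAt Φ ((ContinuousLinearEquiv.refl ℝ E : E ≃L[ℝ] E) : E →L[ℝ] E)
      (κ w₀) := by
    have h1 : HasFDerivAt Φ (L'.comp (fderiv ℝ ψ (κ w₀))) (κ w₀) :=
      L'.hasFDerivAt.comp _ (hψ2.differentiableAt (by norm_num)).hasFDerivAt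
    have h2 : L'.comp (fderiv ℝ ψ (κ w₀)) =
        ((ContinuousLinearEquiv.refl ℝ E : E ≃L[ℝ] E) : E →L[ℝ] E) := by
      ext v
      exact hL'' v
    rwa [h2] at h1
  have h2 : (2 : WithTop ℕ∞) ≠ 0 := by norm_num
  set inv := hΦ2.localInverse hΦd h2 with hinv
  have hinv2 : ContDiffAt ℝ 2 inv (Φ (κ w₀)) := hΦ2.to_localInverse hΦd h2
  have hleft : ∀ᶠ x in 𝓝 (κ w₀), inv (Φ x) = x :=
    (hΦ2.hasStrictFDerivAt' hΦd h2).eventually_left_inverse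
  have hΦw : Φ (κ w₀) = L' (h w₀) := by
    show L' (h (κ.symm (κ w₀))) = _
    rw [κ.left_inv hw]
  have hev : (κ ∘ G) =ᶠ[𝓝 z₀] inv ∘ (fun z => L' ((h ∘ G) z)) := by
    have h3 : ∀ᶠ z in 𝓝 z₀, G z ∈ κ.source :=
      hG.continuousAt.eventually ((isOpen_extChartAt_source w₀).mem_nhds hw)
    have h4 : ContinuousAt (κ ∘ G) z₀ :=
      ContinuousAt.comp (continuousAt_extChartAt w₀) hG.continuousAt
    have h5 : ∀ᶠ z in 𝓝 z₀, inv (Φ (κ (G z))) = κ (G z) := h4.eventually hleft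
    filter_upwards [h3, h5] with z hz hz'
    show κ (G z) = inv (L' (h (G z)))
    have h6 : Φ (κ (G z)) = L' (h (G z)) := by
      show L' (h (κ.symm (κ (G z)))) = _
      rw [κ.left_inv hz]
    rw [← h6, hz']
  refine ContMDiffAt.congr_of_eventuallyEq ?_ hev
  have h7 : ContMDiffAt 𝓘(ℝ, E) 𝓘(ℝ, E) 2 (fun z => L' ((h ∘ G) z)) z₀ :=
    ContMDiffAt.comp z₀ (L'.contMDiff.contMDiffAt) (hGh z₀)
  refine ContMDiffAt.comp z₀ ?_ h7
  have h8 : L' ((h ∘ G) z₀) = Φ (κ w₀) := by rw [hΦw]; rfl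
  rw [h8]
  exact hinv2.contMDiffAt

end Pool.Agent.R189.Sf
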