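import Pool.Agent.R189.IS
import Pool.Agent.R189.Sf1
import Pool.Agent.R189.Sf2
import Pool.Agent.R189.PF
import Pool.Agent.H779R2.An.RealizeE

/-!
# Invariant surfaces of Anosov diffeomorphisms
-/

set_option autoImplicit false
set_option linter.unusedSectionVars false

open scoped Manifold ContDiff Topology Bundle
open Set Filter Bundle

namespace Pool.Agent.R189.Sf

open Pool.Agent.H721R2 Pool.Agent.H789R2.AN Pool.Agent.H779R2.An Pool.Agent.R189.IS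

section sq
variable {E : Type*} [NormedAddCommGroup E] [NormedSpace ℝ E]
  {M : Type*} [TopologicalSpace M] [ChartedSpace E M] [IsManifold 𝓘(ℝ, E) 1 M]
  {E₂ : Type*} [NormedAddCommGroup E₂] [NormedSpace ℝ E₂]
  {Q : Type*} [TopologicalSpace Q] [ChartedSpace E₂ Q] [IsManifold 𝓘(ℝ, E₂) 1 Q]
  {F : Type*} [NormedAddCommGroup F] [NormedSpace ℝ F]

/-- derivative of a map between manifolds, read in the model spaces -/
noncomputable def di (E₂ E : Type*) [NormedAddCommGroup E] [NormedSpace ℝ E]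
    [NormedAddCommGroup E₂] [NormedSpace ℝ E₂]
    {M : Type*} [TopologicalSpace M] [ChartedSpace E M]
    {Q : Type*} [TopologicalSpace Q] [ChartedSpace E₂ Q] (j : Q → M) (z : Q) : E₂ →L[ℝ] E :=
  mfderiv 𝓘(ℝ, E₂) 𝓘(ℝ, E) j z

theorem dm_comp_di (e : M → F) (he : ContMDiff 𝓘(ℝ, E) 𝓘(ℝ, F) 1 e) (j : Q → M)
    (hj : ContMDiff 𝓘(ℝ, E₂) 𝓘(ℝ, E) 1 j) (z : Q) (v : E₂) :
    dm E₂ (e ∘ j) z v = dm E e (j z) (di E₂ E j z v) := by
  have h := mfderiv_comp z (he.mdifferentiableAt (by norm_num) : MDifferentiableAt 𝓘(ℝ, E)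
    𝓘(ℝ, F) e (j z)) (hj.mdifferentiableAt (by norm_num) : MDifferentiableAt 𝓘(ℝ, E₂)
    𝓘(ℝ, E) j z)
  show mfderiv 𝓘(ℝ, E₂) 𝓘(ℝ, F) (e ∘ j) z v = _
  rw [h]
  rfl

/-- commuting squares -/
theorem di_sq (j : Q → M) (hj : ContMDiff 𝓘(ℝ, E₂) 𝓘(ℝ, E) 1 j) (G : Q → Q)
    (hG : ContMDiff 𝓘(ℝ, E₂) 𝓘(ℝ, E₂) 1 G) (g : M → M) (hg : ContMDiff 𝓘(ℝ, E) 𝓘(ℝ, E) 1 g)
    (h : ∀ z, j (G z) = g (j z)) (z : Q) (v : E₂) :
    di E₂ E j (G z) (dg E₂ G z v) = dg E g (j z) (di E₂ E j z v) := by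
  have h1 := mfderiv_comp z (hj.mdifferentiableAt (by norm_num) : MDifferentiableAt 𝓘(ℝ, E₂)
    𝓘(ℝ, E) j (G z)) (hG.mdifferentiableAt (by norm_num) : MDifferentiableAt 𝓘(ℝ, E₂)
    𝓘(ℝ, E₂) G z)
  have h2 := mfderiv_comp z (hg.mdifferentiableAt (by norm_num) : MDifferentiableAt 𝓘(ℝ, E)
    𝓘(ℝ, E) g (j z)) (hj.mdifferentiableAt (by norm_num) : MDifferentiableAt 𝓘(ℝ, E₂)
    𝓘(ℝ, E) j z)
  have h3 : j ∘ G = g ∘ j := funext h
  have h4 : (mfderiv 𝓘(ℝ, E₂) 𝓘(ℝ, E) (j ∘ G) z : E₂ → E) v =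
      (mfderiv 𝓘(ℝ, E₂) 𝓘(ℝ, E) (g ∘ j) z : E₂ → E) v := by rw [h3]
  rw [h1, h2] at h4
  exact h4

end sq

section restr
variable {E : Type*} [NormedAddCommGroup E] [NormedSpace ℝ E] [FiniteDimensional ℝ E]
  {M : Type*} [TopologicalSpace M] [T2Space M] [CompactSpace M] [ChartedSpace E M]
  [IsManifold 𝓘(ℝ, E) ∞ M]
  {E₂ : Type*} [NormedAddCommGroup E₂] [NormedSpace ℝ E₂] [FiniteDimensional ℝ E₂]
  {Q : Type*} [TopologicalSpace Q] [CompactSpace Q] [ChartedSpace E₂ Q]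
  [IsManifold 𝓘(ℝ, E₂) ∞ Q]

/-- The restriction of a `C²` map to an invariant embedded `C²` manifold is `C²`. -/
theorem restr_smooth {j : Q → M} (hj : ContMDiff 𝓘(ℝ, E₂) 𝓘(ℝ, E) 2 j)
    (hji : Function.Injective j) (hjd : ∀ z, Function.Injective (mfderiv 𝓘(ℝ, E₂) 𝓘(ℝ, E) j z))
    {g : M → M} (hg : ContMDiff 𝓘(ℝ, E) 𝓘(ℝ, E) 2 g) {G : Q → Q} (h : ∀ z, j (G z) = g (j z)) :
    ContMDiff 𝓘(ℝ, E₂) 𝓘(ℝ, E₂) 2 G := by
  obtain ⟨m, e, he, hemb, hinj⟩ := exists_embedding_euclidean_of_compact (I := 𝓘(ℝ, E)) (M := M)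
  have he2 : ContMDiff 𝓘(ℝ, E) (𝓡 m) 2 e := he.of_le ENat.LEInfty.out
  have he1 : ContMDiff 𝓘(ℝ, E) (𝓡 m) 1 e := he.of_le (by simp)
  have hj1 : ContMDiff 𝓘(ℝ, E₂) 𝓘(ℝ, E) 1 j := hj.of_le (by norm_num)
  have hjc := hj.continuous.isClosedEmbedding hji
  have h3 : j ∘ G = g ∘ j := funext h
  refine smooth_of_comp (h := e ∘ j) (he2.comp hj) (fun z a b hab => ?_) ?_ ?_
  · rw [dm_comp_di e he1 j hj1, dm_comp_di e he1 j hj1] at hab
    exact hjd z (hinj _ hab)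
  · rw [hjc.isEmbedding.continuous_iff, h3]
    exact hg.continuous.comp hj.continuous
  · show ContMDiff 𝓘(ℝ, E₂) (𝓡 m) 2 (e ∘ (j ∘ G))
    rw [h3]
    exact he2.comp (hg.comp hj)

/-- The restriction of a diffeomorphism to an invariant embedded manifold. -/
theorem exists_restr {j : Q → M} (hj : ContMDiff 𝓘(ℝ, E₂) 𝓘(ℝ, E) 2 j)
    (hji : Function.Injective j) (hjd : ∀ z, Function.Injective (mfderiv 𝓘(ℝ, E₂) 𝓘(ℝ, E) j z))
    {g g' : M → M} (hg : ContMDiff 𝓘(ℝ, E) 𝓘(ℝ, E) 2 g) (hg' : ContMDiff 𝓘(ℝ, E) 𝓘(ℝ, E) 2 g')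
    (hl : ∀ x, g' (g x) = x) (hinv : g '' range j = range j) :
    ∃ G : Diffeomorph 𝓘(ℝ, E₂) 𝓘(ℝ, E₂) Q Q 1, ContMDiff 𝓘(ℝ, E₂) 𝓘(ℝ, E₂) 2 G ∧
      ContMDiff 𝓘(ℝ, E₂) 𝓘(ℝ, E₂) 2 G.symm ∧ (∀ z, j (G z) = g (j z)) ∧
      ∀ z, j (G.symm z) = g' (j z) := by
  have h1 : ∀ z, ∃ z', j z' = g (j z) := fun z => by
    have : g (j z) ∈ range j := by
      rw [← hinv]; exact mem_image_of_mem g (mem_range_self z)
    exact this
  have h2 : ∀ z, ∃ z', j z' = g' (j z) := fun z => by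
    have : j z ∈ g '' range j := by rw [hinv]; exact mem_range_self z
    obtain ⟨_, ⟨z', rfl⟩, hz'⟩ := this
    exact ⟨z', by rw [← hz', hl]⟩
  choose G hG using h1
  choose G' hG' using h2
  have hr : ∀ z, g (g' (j z)) = j z := fun z => by
    have : j z ∈ g '' range j := by rw [hinv]; exact mem_range_self z
    obtain ⟨_, ⟨z', rfl⟩, hz'⟩ := this
    rw [← hz', hl]
  have s1 := restr_smooth hj hji hjd hg hG
  have s2 := restr_smooth hj hji hjd hg' hG'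
  exact ⟨{
    toFun := G
    invFun := G'
    left_inv := fun z => hji (by rw [hG', hG, hl])
    right_inv := fun z => hji (by rw [hG, hG', hr])
    contMDiff_toFun := s1.of_le (by norm_num)
    contMDiff_invFun := s2.of_le (by norm_num) }, s1, s2, hG, hG'⟩

end restr

section dir
variable {E : Type*} [NormedAddCommGroup E] [NormedSpace ℝ E] [FiniteDimensional ℝ E]
  {M : Type*} [TopologicalSpace M] [T2Space M] [CompactSpace M] [ChartedSpace E M]
  [IsManifold 𝓘(ℝ, E) ∞ M]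
  {E₂ : Type*} [NormedAddCommGroup E₂] [NormedSpace ℝ E₂] [FiniteDimensional ℝ E₂]
  {Q : Type*} [TopologicalSpace Q] [CompactSpace Q] [ConnectedSpace Q] [ChartedSpace E₂ Q]
  [IsManifold 𝓘(ℝ, E₂) ∞ Q]

/-- manifolds of positive dimension are infinite -/
theorem infinite_of_charted [Nontrivial E₂] : Infinite Q := by
  obtain ⟨z⟩ : Nonempty Q := inferInstance
  have h1 : (extChartAt 𝓘(ℝ, E₂) z).target ∈ 𝓝 (extChartAt 𝓘(ℝ, E₂) z z) :=
    extChartAt_target_mem_nhds z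
  have := Module.punctured_nhds_neBot ℝ E₂ (extChartAt 𝓘(ℝ, E₂) z z)
  have h2 : (extChartAt 𝓘(ℝ, E₂) z).target.Infinite := infinite_of_mem_nhds _ h1
  rw [← (extChartAt 𝓘(ℝ, E₂) z).image_source_eq_target] at h2
  have h3 : (extChartAt 𝓘(ℝ, E₂) z).source.Infinite := h2.of_image _
  exact Set.infinite_univ_iff.mp (h3.mono (subset_univ _))

/-- **Invariant manifolds contain stable directions.** -/
theorem exists_dir [Nontrivial E₂] {j : Q → M} (hj : ContMDiff 𝓘(ℝ, E₂) 𝓘(ℝ, E) 1 j)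
    (hji : Function.Injective j) (hjd : ∀ z, Function.Injective (mfderiv 𝓘(ℝ, E₂) 𝓘(ℝ, E) j z))
    (f : Diffeomorph 𝓘(ℝ, E) 𝓘(ℝ, E) M M 1)
    (Es Eu : ∀ x : M, Submodule ℝ (TangentSpace 𝓘(ℝ, E) x)) (hA : IsAnosov f Es Eu)
    {k : ℕ} (hk : 1 ≤ k) (G : Diffeomorph 𝓘(ℝ, E₂) 𝓘(ℝ, E₂) Q Q 1)
    (hG : ∀ z, j (G z) = f^[k] (j z)) (z : Q) :
    (∃ w : E₂, w ≠ 0 ∧ di E₂ E j z w ∈ Es (j z)) ∧ ∃ w : E₂, w ≠ 0 ∧ di E₂ E j z w ∈ Eu (j z) := by
  classical
  have hG' : ∀ z, j (G.symm z) = f.symm^[k] (j z) := by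
    intro z
    have h1 := hG (G.symm z)
    rw [G.apply_symm_apply] at h1
    rw [h1]
    exact (((Function.LeftInverse.iterate f.symm_apply_apply k) _).symm)
  have hGn : ∀ (n : ℕ) (z : Q), j (G^[n] z) = f^[k * n] (j z) := by
    intro n
    induction n with
    | zero => intro z; rfl
    | succ n ih =>
      intro z
      rw [Function.iterate_succ_apply', hG, ih, ← Function.iterate_add_apply]
      congr 1
      ring
  have hGn' : ∀ (n : ℕ) (z : Q), j (G.symm^[n] z) = f.symm^[k * n] (j z) := by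
    intro n
    induction n with
    | zero => intro z; rfl
    | succ n ih =>
      intro z
      rw [Function.iterate_succ_apply', hG', ih, ← Function.iterate_add_apply]
      congr 1
      ring
  obtain ⟨m, e, he, hemb, hinj⟩ := exists_embedding_euclidean_of_compact (I := 𝓘(ℝ, E)) (M := M)
  let _ : MetricSpace M := hemb.isEmbedding.comapMetricSpace e
  have hiso : ∀ x y : M, dist x y = ‖e x - e y‖ := fun x y => dist_eq_norm (e x) (e y)
  have he1 : ContMDiff 𝓘(ℝ, E) (𝓡 m) 1 e := he.of_le (by simp)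
  have hjc := hj.continuous.isClosedEmbedding hji
  have hemb2 : Topology.IsEmbedding (e ∘ j) := hemb.isEmbedding.comp hjc.isEmbedding
  let _ : MetricSpace Q := hemb2.comapMetricSpace (e ∘ j)
  have hiso2 : ∀ x y : Q, dist x y = ‖(e ∘ j) x - (e ∘ j) y‖ := fun x y =>
    dist_eq_norm ((e ∘ j) x) ((e ∘ j) y)
  have hh : ContMDiff 𝓘(ℝ, E₂) (𝓡 m) 1 (e ∘ j) := he1.comp hj
  have hdj : ∀ z v, dm E₂ (e ∘ j) z v = dm E e (j z) (di E₂ E j z v) :=
    dm_comp_di e he1 j hj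
  have hhinj : ∀ z, Function.Injective (dm E₂ (e ∘ j) z) := fun z a b hab => by
    rw [hdj, hdj] at hab
    exact hjd z (hinj _ hab)
  obtain ⟨C', a, b, Ls, Lu, hE⟩ := eanosov_of_isAnosov e he1 hinj f Es Eu hA
  obtain ⟨K, hK, hang⟩ := hE.angle he1 hinj
  have t0 : Tendsto (fun n : ℕ => k * n) atTop atTop := tendsto_id.const_mul_atTop' (by omega)
  have t1 : Tendsto (fun n : ℕ => K * (C' * a ^ (k * n))) atTop (𝓝 0) := by
    have := (((tendsto_pow_atTop_nhds_zero_of_lt_one hE.a_pos.le hE.a_lt).const_mul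
      C').const_mul K).comp t0
    simpa [Function.comp_def] using this
  have t2 : Tendsto (fun n : ℕ => K * (C' * b ^ (k * n))) atTop (𝓝 0) := by
    have := (((tendsto_pow_atTop_nhds_zero_of_lt_one hE.b_pos.le hE.b_lt).const_mul
      C').const_mul K).comp t0
    simpa [Function.comp_def] using this
  obtain ⟨n, hn1, hn2⟩ := (((tendsto_order.mp t1).2 (1 / 16) (by norm_num)).and
    ((tendsto_order.mp t2).2 (1 / 16) (by norm_num))).exists
  obtain ⟨S, hS⟩ := exists_realizes hiso he1 hinj hE K hK hang (k * n) hn1.le hn2.le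
  have hSg : ∀ x, S.g x = f^[k * n] x := fun x => by rw [hS.g_eq]; rfl
  have hSg' : ∀ x, S.g.symm x = f.symm^[k * n] x := fun x => by rw [hS.g_eq]; rfl
  -- tangent spaces
  let T : M → Submodule ℝ (EuclideanSpace ℝ (Fin m)) := fun x =>
    if h : ∃ z, j z = x then LinearMap.range (dm E₂ (e ∘ j) h.choose).toLinearMap else ⊥
  have hT : ∀ z, T (j z) = LinearMap.range (dm E₂ (e ∘ j) z).toLinearMap := by
    intro z
    have h1 : ∃ z', j z' = j z := ⟨z, rfl⟩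
    have h2 : h1.choose = z := hji h1.choose_spec
    show (if h : ∃ z', j z' = j z then LinearMap.range (dm E₂ (e ∘ j) h.choose).toLinearMap
      else ⊥) = _
    rw [dif_pos h1, h2]
  have hTm : ∀ z w, w ∈ T (j z) ↔ ∃ v, dm E₂ (e ∘ j) z v = w := by
    intro z w
    rw [hT]
    exact Iff.rfl
  have sm := iter_smooth f f.contMDiff (k * n)
  have sm' := iter_smooth f.symm f.symm.contMDiff (k * n)
  have smG := iter_smooth G G.contMDiff n
  have smG' := iter_smooth G.symm G.symm.contMDiff n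
  have hSub : Sub S (range j) (fun _ => ()) T := {
    inv := by
      intro x
      rw [hSg]
      constructor
      · rintro ⟨z', hz'⟩
        refine ⟨G.symm^[n] z', ?_⟩
        rw [hGn', hz']
        exact (Function.LeftInverse.iterate f.symm_apply_apply (k * n)) x
      · rintro ⟨z', rfl⟩
        exact ⟨G^[n] z', hGn n z'⟩
    lab := fun _ _ => by simp
    le := by
      rintro _ ⟨z', rfl⟩ w hw
      obtain ⟨v, rfl⟩ := (hTm z' w).mp hw
      obtain ⟨s, hs, u, hu, hsu⟩ := hE.decomp (j z') (di E₂ E j z' v)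
      rw [hdj, ← hsu, map_add]
      refine Submodule.add_mem_sup ?_ ?_
      · rw [hS.Vs_eq]; exact ⟨s, hs, rfl⟩
      · rw [hS.Vu_eq]; exact ⟨u, hu, rfl⟩
    mapT := by
      rintro _ ⟨z', rfl⟩ w hw
      obtain ⟨v, rfl⟩ := (hTm z' w).mp hw
      rw [hdj, hS.D_eq, hSg, ← hGn]
      rw [hTm]
      refine ⟨dg E₂ (G^[n]) z' v, ?_⟩
      have h1 := di_sq j hj (G^[n]) smG (f^[k * n]) sm (hGn n) z' v
      rw [hdj, h1, hGn]
      rfl
    mapT' := by
      rintro _ ⟨z', rfl⟩ w hw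
      obtain ⟨v, rfl⟩ := (hTm z' w).mp hw
      rw [hdj, hS.D'_eq, hSg', ← hGn']
      rw [hTm]
      refine ⟨dg E₂ (G.symm^[n]) z' v, ?_⟩
      have h1 := di_sq j hj (G.symm^[n]) smG' (f.symm^[k * n]) sm' (hGn' n) z' v
      rw [hdj, h1, hGn']
      rfl
    diff := by
      intro η hη
      have hP : ∃ r > 0, ∀ x y : Q, dist x y < r → ∃ v : E₂,
          ‖(e ∘ j) y - (e ∘ j) x - dm E₂ (e ∘ j) x v‖ ≤ η * ‖(e ∘ j) y - (e ∘ j) x‖ := by
        apply exists_uniform_radius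
        intro x₀
        obtain ⟨-, h1⟩ := local_all (e ∘ j) hh hhinj (e ∘ j) hh x₀
        obtain ⟨W, hW, r, hr, h2, -, -⟩ := h1 η hη
        refine ⟨W, hW, fun x hx y hy => ?_⟩
        obtain ⟨v, h3, -⟩ := h2 x hx y hy
        exact ⟨v, h3⟩
      obtain ⟨r, hr, hP⟩ := hP
      refine ⟨r, hr, ?_⟩
      rintro _ ⟨x, rfl⟩ _ ⟨y, rfl⟩ _ hxy
      obtain ⟨v, hv⟩ := hP x y hxy
      refine ⟨_, (hTm x _).mpr ⟨v, rfl⟩, ?_⟩
      rw [hS.e_eq, hiso, norm_sub_rev (e (j x))]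
      exact hv
    cont := by
      intro η hη
      have hP : ∃ r > 0, ∀ x y : Q, dist x y < r → ∀ v : E₂, ∃ w : E₂,
          ‖dm E₂ (e ∘ j) x v - dm E₂ (e ∘ j) y w‖ ≤ η * ‖dm E₂ (e ∘ j) x v‖ := by
        apply exists_uniform_radius
        intro x₀
        obtain ⟨-, h1⟩ := local_all (e ∘ j) hh hhinj (e ∘ j) hh x₀
        obtain ⟨W, hW, r, hr, -, -, h2⟩ := h1 η hη
        refine ⟨W, hW, fun x hx y hy v => ?_⟩
        obtain ⟨w, h3, -⟩ := h2 x hx y hy v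
        exact ⟨w, h3⟩
      obtain ⟨r, hr, hP⟩ := hP
      refine ⟨r, hr, ?_⟩
      rintro _ ⟨x, rfl⟩ _ ⟨y, rfl⟩ hxy w hw
      obtain ⟨v, rfl⟩ := (hTm x w).mp hw
      obtain ⟨w', hw'⟩ := hP x y hxy v
      exact ⟨_, (hTm y _).mpr ⟨w', rfl⟩, hw'⟩ }
  have hZc : IsCompact (range j) := isCompact_range hj.continuous
  have hset : ∀ x : M, {y | y ∈ range j ∧ (fun _ : M => ()) x = (fun _ : M => ()) y} = range j := by
    intro x
    ext y
    exact ⟨fun h => h.1, fun h => ⟨h, rfl⟩⟩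
  have hinf : (range j).Infinite := by
    have := infinite_of_charted (E₂ := E₂) (Q := Q)
    exact Set.infinite_range_of_injective hji
  have hcon : IsPreconnected (range j) := isPreconnected_range hj.continuous
  have hun : ∀ V : Submodule ℝ E, (∃ v ∈ T (j z), v ∈ V.map (dm E e (j z)).toLinearMap ∧ v ≠ 0) →
      ∃ w : E₂, w ≠ 0 ∧ di E₂ E j z w ∈ V := by
    rintro V ⟨v, hv, ⟨s, hs, hsv⟩, hv0⟩
    obtain ⟨w, rfl⟩ := (hTm z v).mp hv
    refine ⟨w, fun h0 => hv0 ?_, ?_⟩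
    · rw [h0, map_zero]
    · rw [hdj] at hsv
      have h1 := hinj _ hsv
      rw [← h1]
      exact hs
  constructor
  · obtain ⟨v, h1, h2, h3⟩ := exists_stable hSub hZc (fun x _ => by rw [hset x]; exact hcon)
      (fun x _ => by rw [hset x]; exact hinf) (mem_range_self z)
    rw [hS.Vs_eq] at h2
    exact hun _ ⟨v, h1, h2, h3⟩
  · obtain ⟨v, h1, h2, h3⟩ := exists_unstable hSub hZc (fun x _ => by rw [hset x]; exact hcon)
      (fun x _ => by rw [hset x]; exact hinf) (mem_range_self z)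
    rw [hS.Vu_eq] at h2
    exact hun _ ⟨v, h1, h2, h3⟩

end dir

end Pool.Agent.R189.Sf
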