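import Pool.Agent.R189.Sf3

/-!
# Invariant surfaces of Anosov diffeomorphisms: the restriction is Anosov and transitive
-/

set_option autoImplicit false
set_option linter.unusedSectionVars false

open scoped Manifold ContDiff Topology Bundle
open Set Filter Bundle

namespace Pool.Agent.R189.Sf

open Pool.Agent.H721R2 Pool.Agent.H789R2.AN Pool.Agent.H779R2.An Pool.Agent.R189.IS

section surf
variable {E : Type*} [NormedAddCommGroup E] [NormedSpace ℝ E] [FiniteDimensional ℝ E]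
  {M : Type*} [TopologicalSpace M] [T2Space M] [CompactSpace M] [ChartedSpace E M]
  [IsManifold 𝓘(ℝ, E) ∞ M]
  {E₂ : Type*} [NormedAddCommGroup E₂] [NormedSpace ℝ E₂] [FiniteDimensional ℝ E₂]
  {Q : Type*} [TopologicalSpace Q] [CompactSpace Q] [ConnectedSpace Q] [ChartedSpace E₂ Q]
  [IsManifold 𝓘(ℝ, E₂) ∞ Q]

/-- pulled back subspaces -/
noncomputable def pb (E₂ : Type*) [NormedAddCommGroup E₂] [NormedSpace ℝ E₂]
    {E : Type*} [NormedAddCommGroup E] [NormedSpace ℝ E]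
    {M : Type*} [TopologicalSpace M] [ChartedSpace E M]
    {Q : Type*} [TopologicalSpace Q] [ChartedSpace E₂ Q] (j : Q → M)
    (V : ∀ x : M, Submodule ℝ (TangentSpace 𝓘(ℝ, E) x)) (z : Q) :
    Submodule ℝ (TangentSpace 𝓘(ℝ, E₂) z) :=
  (V (j z)).comap (mfderiv 𝓘(ℝ, E₂) 𝓘(ℝ, E) j z).toLinearMap

theorem mem_pb (j : Q → M) (V : ∀ x : M, Submodule ℝ (TangentSpace 𝓘(ℝ, E) x)) (z : Q) (v : E₂) :
    v ∈ (pb E₂ j V z : Submodule ℝ E₂) ↔ di E₂ E j z v ∈ (V (j z) : Submodule ℝ E) := Iff.rfl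

theorem pb_map {j : Q → M} (hj : ContMDiff 𝓘(ℝ, E₂) 𝓘(ℝ, E) 1 j)
    {g : M → M} (hg : ContMDiff 𝓘(ℝ, E) 𝓘(ℝ, E) 1 g)
    {V : ∀ x : M, Submodule ℝ (TangentSpace 𝓘(ℝ, E) x)} (hV : InvariantField g V)
    {G : Q → Q} (hG : ContMDiff 𝓘(ℝ, E₂) 𝓘(ℝ, E₂) 1 G) (h : ∀ z, j (G z) = g (j z)) (z : Q)
    (v : E₂) (hv : v ∈ (pb E₂ j V z : Submodule ℝ E₂)) :
    dg E₂ G z v ∈ (pb E₂ j V (G z) : Submodule ℝ E₂) := by
  rw [mem_pb] at hv ⊢
  rw [di_sq j hj G hG g hg h z v]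
  let V' : M → Submodule ℝ E := V
  show _ ∈ V' (j (G z))
  rw [h z]
  show _ ∈ (V (g (j z)) : Submodule ℝ E)
  rw [← hV (j z)]
  exact ⟨_, hv, rfl⟩

theorem pb_inv {j : Q → M} (hj : ContMDiff 𝓘(ℝ, E₂) 𝓘(ℝ, E) 1 j)
    {g g' : M → M} (hg : ContMDiff 𝓘(ℝ, E) 𝓘(ℝ, E) 1 g) (hg' : ContMDiff 𝓘(ℝ, E) 𝓘(ℝ, E) 1 g')
    {V : ∀ x : M, Submodule ℝ (TangentSpace 𝓘(ℝ, E) x)} (hV : InvariantField g V)
    (hV' : InvariantField g' V)
    (G : Diffeomorph 𝓘(ℝ, E₂) 𝓘(ℝ, E₂) Q Q 1) (h : ∀ z, j (G z) = g (j z))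
    (h' : ∀ z, j (G.symm z) = g' (j z)) : InvariantField G (pb E₂ j V) := by
  intro z
  apply le_antisymm
  · rintro _ ⟨v, hv, rfl⟩
    exact pb_map hj hg hV G.contMDiff h z v hv
  · intro w hw
    have h1 := pb_map hj hg' hV' G.symm.contMDiff h' (G z) w hw
    have h2 : dg E₂ G z (dg E₂ G.symm (G z) w) = w := by
      have h3 := dg_inv G.symm G G.symm.contMDiff G.contMDiff G.apply_symm_apply (G z) w
      let A : Q → E₂ →L[ℝ] E₂ := fun y => dg E₂ G y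
      have h4 : A (G.symm (G z)) (dg E₂ G.symm (G z) w) = w := h3
      rw [G.symm_apply_apply] at h4
      exact h4
    let B : Q → Submodule ℝ E₂ := fun y => pb E₂ j V y
    have h5 : dg E₂ G.symm (G z) w ∈ B (G.symm (G z)) := h1
    rw [G.symm_apply_apply] at h5
    exact ⟨_, h5, h2⟩

/-- the restriction of an Anosov diffeomorphism to an invariant surface is Anosov -/
theorem surf_anosov (h2 : Module.finrank ℝ E₂ = 2)
    {j : Q → M} (hj : ContMDiff 𝓘(ℝ, E₂) 𝓘(ℝ, E) 1 j)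
    (hji : Function.Injective j) (hjd : ∀ z, Function.Injective (mfderiv 𝓘(ℝ, E₂) 𝓘(ℝ, E) j z))
    (f : Diffeomorph 𝓘(ℝ, E) 𝓘(ℝ, E) M M 1)
    (Es Eu : ∀ x : M, Submodule ℝ (TangentSpace 𝓘(ℝ, E) x)) (hA : IsAnosov f Es Eu)
    {k : ℕ} (hk : 1 ≤ k) (G : Diffeomorph 𝓘(ℝ, E₂) 𝓘(ℝ, E₂) Q Q 1)
    (hG : ∀ z, j (G z) = f^[k] (j z)) :
    IsAnosov G (pb E₂ j Es) (pb E₂ j Eu) ∧ (∀ z, Module.finrank ℝ (pb E₂ j Es z) = 1) ∧
      ∀ z, Module.finrank ℝ (pb E₂ j Eu z) = 1 := by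
  have : Nontrivial E₂ := Module.nontrivial_of_finrank_pos (R := ℝ) (by omega)
  have hG' : ∀ z, j (G.symm z) = f.symm^[k] (j z) := by
    intro z
    have h1 := hG (G.symm z)
    rw [G.apply_symm_apply] at h1
    rw [h1]
    exact (((Function.LeftInverse.iterate f.symm_apply_apply k) _).symm)
  have hGn : ∀ (n : ℕ) (z : Q), j (G^[n] z) = f^[k * n] (j z) := by
    intro n
    induction n with
    | zero => intro z; rfl
    | succ n ih =>
      intro z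
      rw [Function.iterate_succ_apply', hG, ih, ← Function.iterate_add_apply]
      congr 1
      ring
  have hGn' : ∀ (n : ℕ) (z : Q), j (G.symm^[n] z) = f.symm^[k * n] (j z) := by
    intro n
    induction n with
    | zero => intro z; rfl
    | succ n ih =>
      intro z
      rw [Function.iterate_succ_apply', hG', ih, ← Function.iterate_add_apply]
      congr 1
      ring
  have hdir := exists_dir hj hji hjd f Es Eu hA hk G hG
  have hdisj : ∀ z, (pb E₂ j Es z : Submodule ℝ E₂) ⊓ (pb E₂ j Eu z : Submodule ℝ E₂) = ⊥ := by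
    intro z
    rw [eq_bot_iff]
    rintro v ⟨hv1, hv2⟩
    have h3 : di E₂ E j z v ∈ (Es (j z) ⊓ Eu (j z) : Submodule ℝ E) := ⟨hv1, hv2⟩
    have h4 : (Es (j z) ⊓ Eu (j z) : Submodule ℝ E) = ⊥ := (hA.isCompl (j z)).inf_eq_bot
    rw [h4] at h3
    have h5 : di E₂ E j z v = 0 := h3
    have h6 : v = 0 := hjd z (by
      show di E₂ E j z v = di E₂ E j z 0
      rw [h5, map_zero])
    rw [h6]
    exact Submodule.zero_mem _
  have hpos : ∀ (z : Q) (V : Submodule ℝ E₂), (∃ w ∈ V, w ≠ 0) → 1 ≤ Module.finrank ℝ V := by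
    rintro z V ⟨w, hw, hw0⟩
    by_contra hcon
    have h0 : Module.finrank ℝ V = 0 := by omega
    rw [Submodule.finrank_eq_zero] at h0
    rw [h0] at hw
    exact hw0 hw
  have hs1 : ∀ z, 1 ≤ Module.finrank ℝ (pb E₂ j Es z : Submodule ℝ E₂) := fun z => by
    obtain ⟨⟨w, hw0, hw⟩, -⟩ := hdir z
    exact hpos z _ ⟨w, hw, hw0⟩
  have hu1 : ∀ z, 1 ≤ Module.finrank ℝ (pb E₂ j Eu z : Submodule ℝ E₂) := fun z => by
    obtain ⟨-, ⟨w, hw0, hw⟩⟩ := hdir z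
    exact hpos z _ ⟨w, hw, hw0⟩
  have hgen : ∀ A B : Submodule ℝ E₂, A ⊓ B = ⊥ → Module.finrank ℝ (A ⊔ B : Submodule ℝ E₂) =
      Module.finrank ℝ A + Module.finrank ℝ B := fun A B h => by
    have h3 := Submodule.finrank_sup_add_finrank_inf_eq A B
    rw [h, finrank_bot] at h3
    exact h3
  have hsum : ∀ z, Module.finrank ℝ
        ((pb E₂ j Es z : Submodule ℝ E₂) ⊔ (pb E₂ j Eu z : Submodule ℝ E₂) : Submodule ℝ E₂) =
      Module.finrank ℝ (pb E₂ j Es z : Submodule ℝ E₂) +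
        Module.finrank ℝ (pb E₂ j Eu z : Submodule ℝ E₂) := fun z => hgen _ _ (hdisj z)
  have hle' : ∀ A : Submodule ℝ E₂, Module.finrank ℝ A ≤ 2 := fun A => h2 ▸ Submodule.finrank_le A
  have hle : ∀ z, Module.finrank ℝ
      ((pb E₂ j Es z : Submodule ℝ E₂) ⊔ (pb E₂ j Eu z : Submodule ℝ E₂) : Submodule ℝ E₂) ≤ 2 :=
    fun z => hle' _
  have htop : ∀ A : Submodule ℝ E₂, Module.finrank ℝ A = 2 → A = ⊤ := fun A hA2 =>
    Submodule.eq_top_of_finrank_eq (by rw [hA2, h2])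
  have hs : ∀ z, Module.finrank ℝ (pb E₂ j Es z : Submodule ℝ E₂) = 1 := fun z => by
    have := hsum z; have := hle z; have := hs1 z; have := hu1 z; omega
  have hu : ∀ z, Module.finrank ℝ (pb E₂ j Eu z : Submodule ℝ E₂) = 1 := fun z => by
    have := hsum z; have := hle z; have := hs1 z; have := hu1 z; omega
  refine ⟨?_, hs, hu⟩
  have smk := iter_smooth f f.contMDiff k
  have smk' := iter_smooth f.symm f.symm.contMDiff k
  have hAs := anosov_symm hA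
  exact {
    isCompl := fun z => ⟨disjoint_iff.mpr (hdisj z), codisjoint_iff.mpr (htop
      ((pb E₂ j Es z : Submodule ℝ E₂) ⊔ (pb E₂ j Eu z : Submodule ℝ E₂))
      (by rw [hsum z, hs z, hu z]))⟩
    map_s := pb_inv hj smk smk' (inv_iter f.contMDiff hA.map_s k)
      (inv_iter f.symm.contMDiff hAs.map_u k) G hG hG'
    map_u := pb_inv hj smk smk' (inv_iter f.contMDiff hA.map_u k)
      (inv_iter f.symm.contMDiff hAs.map_s k) G hG hG'
    rates := by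
      obtain ⟨N, C, l, hN, hC, hl0, hl1, r1, r2⟩ := hA.rates
      refine ⟨fun w => N (tangentMap 𝓘(ℝ, E₂) 𝓘(ℝ, E) j w), C, l ^ k,
        ⟨hN.continuous.comp (hj.continuous_tangentMap (by norm_num)), ?_, ?_, ?_⟩, hC,
        pow_pos hl0 k, pow_lt_one₀ hl0.le hl1 (by omega), ?_, ?_⟩
      · intro z v hv
        refine hN.pos (j z) _ (fun h0 => hv ?_)
        exact hjd z (h0.trans (map_zero (mfderiv 𝓘(ℝ, E₂) 𝓘(ℝ, E) j z)).symm)
      · intro z c v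
        have := hN.smul (j z) c (mfderiv 𝓘(ℝ, E₂) 𝓘(ℝ, E) j z v)
        rw [← map_smul] at this
        exact this
      · intro z v w
        have := hN.add (j z) (mfderiv 𝓘(ℝ, E₂) 𝓘(ℝ, E) j z v) (mfderiv 𝓘(ℝ, E₂) 𝓘(ℝ, E) j z w)
        rw [← map_add] at this
        exact this
      · intro n z v hv
        have h3 : tangentMap 𝓘(ℝ, E₂) 𝓘(ℝ, E) j (tangentMap 𝓘(ℝ, E₂) 𝓘(ℝ, E₂) (G^[n]) ⟨z, v⟩) =
            tangentMap 𝓘(ℝ, E) 𝓘(ℝ, E) (f^[k * n])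
              (tangentMap 𝓘(ℝ, E₂) 𝓘(ℝ, E) j ⟨z, v⟩) := by
          have e1 := tangentMap_comp (hj.mdifferentiable (by norm_num))
            ((iter_smooth G G.contMDiff n).mdifferentiable (by norm_num))
          have e2 := tangentMap_comp ((iter_smooth f f.contMDiff (k * n)).mdifferentiable
            (by norm_num)) (hj.mdifferentiable (by norm_num) : MDifferentiable 𝓘(ℝ, E₂) 𝓘(ℝ, E) j)
          have e3 : j ∘ G^[n] = f^[k * n] ∘ j := funext (hGn n)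
          rw [e3, e2] at e1
          exact (congrFun e1 ⟨z, v⟩).symm
        show N (tangentMap 𝓘(ℝ, E₂) 𝓘(ℝ, E) j
          (tangentMap 𝓘(ℝ, E₂) 𝓘(ℝ, E₂) (G^[n]) ⟨z, v⟩)) ≤ _
        rw [h3, ← pow_mul]
        exact r1 (k * n) (j z) _ hv
      · intro n z v hv
        have h3 : tangentMap 𝓘(ℝ, E₂) 𝓘(ℝ, E) j
              (tangentMap 𝓘(ℝ, E₂) 𝓘(ℝ, E₂) (G.symm^[n]) ⟨z, v⟩) =
            tangentMap 𝓘(ℝ, E) 𝓘(ℝ, E) (f.symm^[k * n])
              (tangentMap 𝓘(ℝ, E₂) 𝓘(ℝ, E) j ⟨z, v⟩) := by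
          have e1 := tangentMap_comp (hj.mdifferentiable (by norm_num))
            ((iter_smooth G.symm G.symm.contMDiff n).mdifferentiable (by norm_num))
          have e2 := tangentMap_comp ((iter_smooth f.symm f.symm.contMDiff (k * n)).mdifferentiable
            (by norm_num)) (hj.mdifferentiable (by norm_num) : MDifferentiable 𝓘(ℝ, E₂) 𝓘(ℝ, E) j)
          have e3 : j ∘ G.symm^[n] = f.symm^[k * n] ∘ j := funext (hGn' n)
          rw [e3, e2] at e1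
          exact (congrFun e1 ⟨z, v⟩).symm
        show N (tangentMap 𝓘(ℝ, E₂) 𝓘(ℝ, E) j
          (tangentMap 𝓘(ℝ, E₂) 𝓘(ℝ, E₂) (G.symm^[n]) ⟨z, v⟩)) ≤ _
        rw [h3, ← pow_mul]
        exact r2 (k * n) (j z) _ hv }

/-- chains of a power -/
theorem chn_of_pow {f : M → M} {G : Q → Q} {j : Q → M} (hjc : Continuous j) {k : ℕ} (hk : 1 ≤ k)
    (hG : ∀ z, j (G z) = f^[k] (j z))
    (h : ∀ z z' : Q, ∀ 𝒰 ∈ 𝓝ˢ (diagonal Q), Relation.ReflTransGen (fun a b => (G a, b) ∈ 𝒰) z z')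
    (z z' : Q) (𝒰 : Set (M × M)) (hU : 𝒰 ∈ 𝓝ˢ (diagonal M)) :
    Relation.ReflTransGen (fun a b => (f a, b) ∈ 𝒰) (j z) (j z') := by
  have h1 : (Prod.map j j) ⁻¹' 𝒰 ∈ 𝓝ˢ (diagonal Q) := by
    obtain ⟨V, hV, hdV, hVU⟩ := mem_nhdsSet_iff_exists.mp hU
    refine mem_nhdsSet_iff_exists.mpr ⟨(Prod.map j j) ⁻¹' V, hV.preimage (hjc.prodMap hjc), ?_,
      preimage_mono hVU⟩
    rintro ⟨a, b⟩ hab
    have hab' : a = b := hab
    subst hab'
    exact hdV rfl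
  have hd : ∀ x : M, (x, x) ∈ 𝒰 := fun x => subset_of_mem_nhdsSet hU rfl
  have h2 := h z z' _ h1
  induction h2 with
  | refl => exact Relation.ReflTransGen.refl
  | @tail a b _ hab ih =>
    refine ih.trans ?_
    have h3 : ∀ n : ℕ, Relation.ReflTransGen (fun a b => (f a, b) ∈ 𝒰) (j a) (f^[n] (j a)) := by
      intro n
      induction n with
      | zero => exact Relation.ReflTransGen.refl
      | succ n ihn =>
        rw [Function.iterate_succ_apply']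
        exact ihn.tail (hd _)
    obtain ⟨k', rfl⟩ : ∃ k', k = k' + 1 := ⟨k - 1, by omega⟩
    refine (h3 k').tail ?_
    show (f (f^[k'] (j a)), j b) ∈ 𝒰
    rw [← Function.iterate_succ_apply' f, ← hG]
    exact hab

/-- **Invariant surfaces are chain transitive.** -/
theorem surf_chn (h2 : Module.finrank ℝ E₂ = 2)
    {j : Q → M} (hj : ContMDiff 𝓘(ℝ, E₂) 𝓘(ℝ, E) 2 j)
    (hji : Function.Injective j) (hjd : ∀ z, Function.Injective (mfderiv 𝓘(ℝ, E₂) 𝓘(ℝ, E) j z))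
    (f : Diffeomorph 𝓘(ℝ, E) 𝓘(ℝ, E) M M 1)
    (hf : ContMDiff 𝓘(ℝ, E) 𝓘(ℝ, E) 2 f) (hf' : ContMDiff 𝓘(ℝ, E) 𝓘(ℝ, E) 2 f.symm)
    (Es Eu : ∀ x : M, Submodule ℝ (TangentSpace 𝓘(ℝ, E) x)) (hA : IsAnosov f Es Eu)
    {k : ℕ} (hk : 1 ≤ k) (hinv : f^[k] '' range j = range j)
    (z z' : Q) (𝒰 : Set (M × M)) (hU : 𝒰 ∈ 𝓝ˢ (diagonal M)) :
    Relation.ReflTransGen (fun a b => (f a, b) ∈ 𝒰) (j z) (j z') := by
  have : T2Space Q := T2Space.of_injective_continuous hji hj.continuous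
  obtain ⟨G, G2, G2', hG, -⟩ := exists_restr hj hji hjd (smooth_iter hf k) (smooth_iter hf' k)
    (Function.LeftInverse.iterate f.symm_apply_apply k) hinv
  have hj1 : ContMDiff 𝓘(ℝ, E₂) 𝓘(ℝ, E) 1 j := hj.of_le (by norm_num)
  obtain ⟨hGA, r1, r2⟩ := surf_anosov h2 hj1 hji hjd f Es Eu hA hk G hG
  have hT := surf_trans G G2 G2' _ _ hGA r1 r2
  exact chn_of_pow hj.continuous hk hG (fun a b 𝒱 hV =>
    Pool.Agent.R189.PF.chn_of_trans hT a b 𝒱 hV G.surjective G.continuous) z z' 𝒰 hU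

end surf

end Pool.Agent.R189.Sf
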